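import Pool.Agent.H383.SF.Defs

/-!
# Caterpillars in trees: sets on which the sequence of distances is monotone
-/

set_option autoImplicit false

namespace Pool.Agent.H383.SF

open Finset

/-- distances of the leaves of a tree of depth `k` in which every node has at most `b` children;
the leaves are in the order of the tree -/
structure Tree (V : Type) [LinearOrder V] (k b : ℕ) where
  /-- height of the smallest subtree which contains both points -/
  D : V → V → ℕ
  ultra : ∀ x y z, x < y → y < z → D x z = max (D x y) (D y z)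
  pos : ∀ x y, x < y → 1 ≤ D x y
  le : ∀ x y, x < y → D x y ≤ k
  branch : ∀ (R : Finset V) (d : ℕ), (∀ x ∈ R, ∀ y ∈ R, x < y → D x y = d) → R.card ≤ b

variable {V : Type} [LinearOrder V] {k b : ℕ} (Tr : Tree V k b)

open Classical in
/-- the set of the heights in a set of leaves -/
noncomputable def Tree.Del (S : Finset V) : Finset (Fin k) :=
  univ.filter fun j => ∃ x ∈ S, ∃ y ∈ S, x < y ∧ Tr.D x y = (j : ℕ) + 1

lemma Tree.mem_Del (S : Finset V) (j : Fin k) :
    j ∈ Tr.Del S ↔ ∃ x ∈ S, ∃ y ∈ S, x < y ∧ Tr.D x y = (j : ℕ) + 1 := by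
  simp [Tree.Del]

variable {κ : Type} (φ : Finset (Fin k) → κ) {s r : ℕ}

include φ in
theorem dcat (hφ : ∀ E, Homogeneous r φ E → E.card ≤ s) (R : Finset V)
    (hR : ∀ x ∈ R, ∀ y ∈ R, ∀ z ∈ R, x < y → y < z → Tr.D y z ≤ Tr.D x y)
    (hc : ∀ S ⊆ R, ∀ S' ⊆ R, S.card = r + 1 → S'.card = r + 1 →
      φ (Tr.Del S) = φ (Tr.Del S')) : R.card ≤ s * (b - 1) + 1 := by
  classical
  rcases R.eq_empty_or_nonempty with rfl | hne
  · simp
  set M := R.max' hne with hM
  have hMR : M ∈ R := R.max'_mem hne
  set R0 := R.erase M with hR0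
  have hlt : ∀ x ∈ R0, x < M := fun x hx =>
    lt_of_le_of_ne (R.le_max' x (Finset.mem_of_mem_erase hx)) (Finset.ne_of_mem_erase hx)
  have hsub : ∀ x ∈ R0, x ∈ R := fun x hx => Finset.mem_of_mem_erase hx
  have key : ∀ x ∈ R0, ∀ y ∈ R0, x < y → Tr.D x y = Tr.D x M := by
    intro x hx y hy hxy
    rw [Tr.ultra x y M hxy (hlt y hy), max_eq_left (hR x (hsub x hx) y (hsub y hy) M hMR hxy
      (hlt y hy))]
  set E : Finset (Fin k) := univ.filter fun j => ∃ x ∈ R0, Tr.D x M = (j : ℕ) + 1 with hE
  have hEs : E.card ≤ s := by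
    apply hφ
    have hσ : ∀ j : Fin k, ∃ x, j ∈ E → x ∈ R0 ∧ Tr.D x M = (j : ℕ) + 1 := by
      intro j
      by_cases hj : j ∈ E
      · obtain ⟨x, hx⟩ := (Finset.mem_filter.mp hj).2
        exact ⟨x, fun _ => hx⟩
      · exact ⟨M, fun h => absurd h hj⟩
    choose σ hσ using hσ
    have main : ∀ A ⊆ E, A.card = r → insert M (A.image σ) ⊆ R ∧
        (insert M (A.image σ)).card = r + 1 ∧ Tr.Del (insert M (A.image σ)) = A := by
      intro A hA hAr
      have hinj : Set.InjOn σ A := by
        intro a ha a' ha' h
        have h1 := (hσ a (hA ha)).2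
        have h2 := (hσ a' (hA ha')).2
        rw [h, h2] at h1
        exact Fin.ext (by omega)
      have hMn : M ∉ A.image σ := by
        intro h
        obtain ⟨a, ha, h⟩ := Finset.mem_image.mp h
        have := hlt _ (hσ a (hA ha)).1
        rw [h] at this
        exact lt_irrefl _ this
      refine ⟨?_, ?_, ?_⟩
      · intro x hx
        rcases Finset.mem_insert.mp hx with rfl | hx
        · exact hMR
        · obtain ⟨a, ha, rfl⟩ := Finset.mem_image.mp hx
          exact hsub _ (hσ a (hA ha)).1
      · rw [Finset.card_insert_of_notMem hMn, Finset.card_image_of_injOn hinj, hAr]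
      · ext j
        rw [Tr.mem_Del]
        constructor
        · rintro ⟨x, hx, y, hy, hxy, hD⟩
          have hxim : ∃ a ∈ A, σ a = x := by
            rcases Finset.mem_insert.mp hx with rfl | hx
            · exfalso
              rcases Finset.mem_insert.mp hy with rfl | hy
              · exact lt_irrefl _ hxy
              · obtain ⟨a, ha, rfl⟩ := Finset.mem_image.mp hy
                exact lt_asymm hxy (hlt _ (hσ a (hA ha)).1)
            · exact Finset.mem_image.mp hx
          obtain ⟨a, ha, rfl⟩ := hxim
          have h1 := (hσ a (hA ha)).2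
          have h2 : Tr.D (σ a) y = Tr.D (σ a) M := by
            rcases Finset.mem_insert.mp hy with rfl | hy
            · rfl
            · obtain ⟨a', ha', rfl⟩ := Finset.mem_image.mp hy
              exact key _ (hσ a (hA ha)).1 _ (hσ a' (hA ha')).1 hxy
          rw [h2, h1] at hD
          have : a = j := Fin.ext (by omega)
          rwa [← this]
        · intro hj
          exact ⟨σ j, Finset.mem_insert_of_mem (Finset.mem_image_of_mem _ hj), M,
            Finset.mem_insert_self _ _, hlt _ (hσ j (hA hj)).1, (hσ j (hA hj)).2⟩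
    intro A hA A' hA' hAr hAr'
    obtain ⟨h1, h2, h3⟩ := main A hA hAr
    obtain ⟨h1', h2', h3'⟩ := main A' hA' hAr'
    have := hc _ h1 _ h1' h2 h2'
    rwa [h3, h3'] at this
  have hcard : R0.card ≤ (b - 1) * (E.image fun j : Fin k => j.val + 1).card := by
    refine Finset.card_le_mul_card_image_of_maps_to (f := fun x => Tr.D x M) ?_ (b - 1) ?_
    · intro x hx
      have h1 := Tr.pos x M (hlt x hx)
      have h2 := Tr.le x M (hlt x hx)
      refine Finset.mem_image.mpr ⟨⟨Tr.D x M - 1, by omega⟩, ?_, ?_⟩
      · rw [hE, Finset.mem_filter]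
        refine ⟨mem_univ _, x, hx, ?_⟩
        simp only
        omega
      · simp only
        omega
    · intro d _
      have h1 : (insert M (R0.filter fun x => Tr.D x M = d)).card ≤ b := by
        apply Tr.branch _ d
        intro x hx y hy hxy
        have hx' : x ∈ R0.filter fun x => Tr.D x M = d := by
          rcases Finset.mem_insert.mp hx with rfl | hx
          · exfalso
            rcases Finset.mem_insert.mp hy with rfl | hy
            · exact lt_irrefl _ hxy
            · exact lt_asymm hxy (hlt _ (Finset.mem_filter.mp hy).1)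
          · exact hx
        obtain ⟨hx0, hxd⟩ := Finset.mem_filter.mp hx'
        rcases Finset.mem_insert.mp hy with rfl | hy
        · exact hxd
        · rw [key x hx0 y (Finset.mem_filter.mp hy).1 hxy, hxd]
      rw [Finset.card_insert_of_notMem] at h1
      · omega
      · intro h
        exact lt_irrefl _ (hlt _ (Finset.mem_filter.mp h).1)
  have h2 : (E.image fun j : Fin k => j.val + 1).card ≤ s := Finset.card_image_le.trans hEs
  have h3 : R0.card + 1 = R.card := Finset.card_erase_add_one hMR
  have h4 : (b - 1) * (E.image fun j : Fin k => j.val + 1).card ≤ (b - 1) * s :=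
    Nat.mul_le_mul_left _ h2
  rw [mul_comm] at h4
  nlinarith

include φ in
theorem ucat (hφ : ∀ E, Homogeneous r φ E → E.card ≤ s) (R : Finset V)
    (hR : ∀ x ∈ R, ∀ y ∈ R, ∀ z ∈ R, x < y → y < z → Tr.D x y < Tr.D y z)
    (hc : ∀ S ⊆ R, ∀ S' ⊆ R, S.card = r + 1 → S'.card = r + 1 →
      φ (Tr.Del S) = φ (Tr.Del S')) : R.card ≤ s + 1 := by
  classical
  rcases R.eq_empty_or_nonempty with rfl | hne
  · simp
  set M := R.min' hne with hM
  have hMR : M ∈ R := R.min'_mem hne
  set R0 := R.erase M with hR0
  have hlt : ∀ x ∈ R0, M < x := fun x hx =>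
    lt_of_le_of_ne (R.min'_le x (Finset.mem_of_mem_erase hx)) (Finset.ne_of_mem_erase hx).symm
  have hsub : ∀ x ∈ R0, x ∈ R := fun x hx => Finset.mem_of_mem_erase hx
  have key : ∀ x ∈ R0, ∀ y ∈ R0, x < y → Tr.D x y = Tr.D M y := by
    intro x hx y hy hxy
    rw [Tr.ultra M x y (hlt x hx) hxy, max_eq_right (hR M hMR x (hsub x hx) y (hsub y hy)
      (hlt x hx) hxy).le]
  have hinc : ∀ x ∈ R0, ∀ y ∈ R0, x < y → Tr.D M x < Tr.D M y := by
    intro x hx y hy hxy
    rw [← key x hx y hy hxy]
    exact hR M hMR x (hsub x hx) y (hsub y hy) (hlt x hx) hxy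
  set E : Finset (Fin k) := univ.filter fun j => ∃ x ∈ R0, Tr.D M x = (j : ℕ) + 1 with hE
  have hEs : E.card ≤ s := by
    apply hφ
    have hσ : ∀ j : Fin k, ∃ x, j ∈ E → x ∈ R0 ∧ Tr.D M x = (j : ℕ) + 1 := by
      intro j
      by_cases hj : j ∈ E
      · obtain ⟨x, hx⟩ := (Finset.mem_filter.mp hj).2
        exact ⟨x, fun _ => hx⟩
      · exact ⟨M, fun h => absurd h hj⟩
    choose σ hσ using hσ
    have main : ∀ A ⊆ E, A.card = r → insert M (A.image σ) ⊆ R ∧
        (insert M (A.image σ)).card = r + 1 ∧ Tr.Del (insert M (A.image σ)) = A := by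
      intro A hA hAr
      have hinj : Set.InjOn σ A := by
        intro a ha a' ha' h
        have h1 := (hσ a (hA ha)).2
        have h2 := (hσ a' (hA ha')).2
        rw [h, h2] at h1
        exact Fin.ext (by omega)
      have hMn : M ∉ A.image σ := by
        intro h
        obtain ⟨a, ha, h⟩ := Finset.mem_image.mp h
        have := hlt _ (hσ a (hA ha)).1
        rw [h] at this
        exact lt_irrefl _ this
      refine ⟨?_, ?_, ?_⟩
      · intro x hx
        rcases Finset.mem_insert.mp hx with rfl | hx
        · exact hMR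
        · obtain ⟨a, ha, rfl⟩ := Finset.mem_image.mp hx
          exact hsub _ (hσ a (hA ha)).1
      · rw [Finset.card_insert_of_notMem hMn, Finset.card_image_of_injOn hinj, hAr]
      · ext j
        rw [Tr.mem_Del]
        constructor
        · rintro ⟨x, hx, y, hy, hxy, hD⟩
          have hyim : ∃ a ∈ A, σ a = y := by
            rcases Finset.mem_insert.mp hy with rfl | hy
            · exfalso
              rcases Finset.mem_insert.mp hx with rfl | hx
              · exact lt_irrefl _ hxy
              · obtain ⟨a, ha, rfl⟩ := Finset.mem_image.mp hx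
                exact lt_asymm hxy (hlt _ (hσ a (hA ha)).1)
            · exact Finset.mem_image.mp hy
          obtain ⟨a, ha, rfl⟩ := hyim
          have h1 := (hσ a (hA ha)).2
          have h2 : Tr.D x (σ a) = Tr.D M (σ a) := by
            rcases Finset.mem_insert.mp hx with rfl | hx
            · rfl
            · obtain ⟨a', ha', rfl⟩ := Finset.mem_image.mp hx
              exact key _ (hσ a' (hA ha')).1 _ (hσ a (hA ha)).1 hxy
          rw [h2, h1] at hD
          have : a = j := Fin.ext (by omega)
          rwa [← this]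
        · intro hj
          exact ⟨M, Finset.mem_insert_self _ _, σ j,
            Finset.mem_insert_of_mem (Finset.mem_image_of_mem _ hj),
            hlt _ (hσ j (hA hj)).1, (hσ j (hA hj)).2⟩
    intro A hA A' hA' hAr hAr'
    obtain ⟨h1, h2, h3⟩ := main A hA hAr
    obtain ⟨h1', h2', h3'⟩ := main A' hA' hAr'
    have := hc _ h1 _ h1' h2 h2'
    rwa [h3, h3'] at this
  have hcard : R0.card ≤ (E.image fun j : Fin k => j.val + 1).card := by
    refine Finset.card_le_card_of_injOn (fun x => Tr.D M x) ?_ ?_
    · intro x hx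
      have h1 := Tr.pos M x (hlt x hx)
      have h2 := Tr.le M x (hlt x hx)
      refine Finset.mem_coe.mpr (Finset.mem_image.mpr ⟨⟨Tr.D M x - 1, by omega⟩, ?_, ?_⟩)
      · rw [hE, Finset.mem_filter]
        refine ⟨mem_univ _, x, hx, ?_⟩
        simp only
        omega
      · simp only
        omega
    · intro x hx y hy hxy
      simp only at hxy
      by_contra hne'
      rcases lt_or_gt_of_ne hne' with h | h
      · have := hinc x hx y hy h
        omega
      · have := hinc y hy x hx h
        omega
  have h2 : (E.image fun j : Fin k => j.val + 1).card ≤ s := Finset.card_image_le.trans hEs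
  have h3 : R0.card + 1 = R.card := Finset.card_erase_add_one hMR
  omega

end Pool.Agent.H383.SF
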