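import Mathlib

/-!
# Colourings which are determined by the equality patterns of functions: definitions
-/

set_option autoImplicit false

namespace Pool.Agent.H383.SF

/-- All `r`-element subsets of `H` have the same colour. -/
def Homogeneous {V κ : Type} (r : ℕ) (c : Finset V → κ) (H : Finset V) : Prop :=
  ∀ S ⊆ H, ∀ T ⊆ H, S.card = r → T.card = r → c S = c T

/-- The colour of an `r`-subset `{x 0 < … < x (r - 1)}` of the vertices depends only on the
equalities `f i (x a) = f i (x b)` between the values of the functions `f i`, `i < k`, and on the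
comparisons `g j (x a) ≤ g j (x b)` between the values of the functions `g j`, `j < t`. -/
def Determined {N k t : ℕ} {κ : Type} (r : ℕ) (f : Fin k → Fin N → ℕ) (g : Fin t → Fin N → ℕ)
    (c : Finset (Fin N) → κ) : Prop :=
  ∀ x y : Fin r → Fin N, StrictMono x → StrictMono y →
    (∀ i a b, f i (x a) = f i (x b) ↔ f i (y a) = f i (y b)) →
    (∀ j a b, g j (x a) ≤ g j (x b) ↔ g j (y a) ≤ g j (y b)) →
    c (Finset.univ.image x) = c (Finset.univ.image y)

/-- Every family of more than `C ^ k` sets with `k ≥ 1` elements contains a sunflower with `n`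
petals: `n` sets whose pairwise intersections are all the same set `Y`. The sunflower conjecture
of Erdős and Rado says that for every `n` there is such a `C`. -/
def SunflowerBound (n C : ℕ) : Prop :=
  ∀ (k : ℕ) (α : Type) [Fintype α] [DecidableEq α] (F : Finset (Finset α)), 1 ≤ k →
    (∀ S ∈ F, S.card = k) → C ^ k < F.card →
      ∃ (Y : Finset α) (G : Finset (Finset α)), G ⊆ F ∧ G.card = n ∧
        ∀ S ∈ G, ∀ T ∈ G, S ≠ T → S ∩ T = Y

/-- Every colouring (with any set of colours) of the `r`-subsets of more than `C ^ k` vertices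
which is determined by the equality patterns of `k ≥ 1` functions has a homogeneous set with `n`
elements. -/
def EqualityBound (r n C : ℕ) : Prop :=
  ∀ (k N : ℕ) (κ : Type) (f : Fin k → Fin N → ℕ) (g : Fin 0 → Fin N → ℕ)
    (c : Finset (Fin N) → κ), 1 ≤ k → Determined r f g c → C ^ k < N →
      ∃ H : Finset (Fin N), H.card = n ∧ Homogeneous r c H

/-- `64 m (⌊log₄ m⌋ + 1) (⌊log₂ k⌋ + 1)`, the base of the upper bound. -/
def base (k m : ℕ) : ℕ := 64 * ((Nat.log 4 m + 1) * (Nat.log 2 k + 1) * m)

/-- `2 ^ (2 ^ (… ^ m))` with `j` twos -/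
def twr : ℕ → ℕ → ℕ
  | 0, m => m
  | j + 1, m => 2 ^ twr j m

end Pool.Agent.H383.SF
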