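import Pool.Agent.H383.SF.Cat

/-!
# The tree of the numbers with `k` digits in base `b`
-/

set_option autoImplicit false

namespace Pool.Agent.H383.SF

open Finset

/-- number of the `j < k` such that `x` and `y` differ after division by `b ^ j` -/
def dist (b k x y : ℕ) : ℕ := ((range k).filter fun j => x / b ^ j ≠ y / b ^ j).card

lemma dist_le (b k x y : ℕ) : dist b k x y ≤ k := by
  unfold dist
  exact (Finset.card_filter_le _ _).trans (by simp)

lemma div_ne_of_le {b x y i j : ℕ} (hij : i ≤ j) (h : x / b ^ j ≠ y / b ^ j) :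
    x / b ^ i ≠ y / b ^ i := by
  intro he
  apply h
  obtain ⟨l, rfl⟩ := Nat.exists_eq_add_of_le hij
  rw [pow_add, ← Nat.div_div_eq_div_mul, ← Nat.div_div_eq_div_mul, he]

lemma lt_dist_iff {b k x y j : ℕ} (hj : j < k) :
    j < dist b k x y ↔ x / b ^ j ≠ y / b ^ j := by
  unfold dist
  constructor
  · intro h
    by_contra he
    have : ((range k).filter fun j => x / b ^ j ≠ y / b ^ j) ⊆ range j := by
      intro i hi
      obtain ⟨_, hi2⟩ := Finset.mem_filter.mp hi
      rw [Finset.mem_range]
      by_contra hij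
      push Not at hij
      exact div_ne_of_le hij hi2 he
    have := Finset.card_le_card this
    rw [Finset.card_range] at this
    omega
  · intro h
    have : range (j + 1) ⊆ ((range k).filter fun j => x / b ^ j ≠ y / b ^ j) := by
      intro i hi
      rw [Finset.mem_range] at hi
      rw [Finset.mem_filter, Finset.mem_range]
      exact ⟨by omega, div_ne_of_le (by omega) h⟩
    have := Finset.card_le_card this
    rw [Finset.card_range] at this
    omega

lemma dist_ultra (b k : ℕ) {x y z : ℕ} (hxy : x ≤ y) (hyz : y ≤ z) :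
    dist b k x z = max (dist b k x y) (dist b k y z) := by
  have key : ∀ j < k, (j < dist b k x z ↔ j < dist b k x y ∨ j < dist b k y z) := by
    intro j hj
    rw [lt_dist_iff hj, lt_dist_iff hj, lt_dist_iff hj]
    have h1 : x / b ^ j ≤ y / b ^ j := Nat.div_le_div_right hxy
    have h2 : y / b ^ j ≤ z / b ^ j := Nat.div_le_div_right hyz
    omega
  have l1 := dist_le b k x y
  have l2 := dist_le b k y z
  have l3 := dist_le b k x z
  apply le_antisymm
  · by_contra hlt
    push Not at hlt
    have := (key _ (lt_of_lt_of_le hlt l3)).mp hlt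
    omega
  · rw [max_le_iff]
    constructor
    · by_contra hlt
      push Not at hlt
      have := (key _ (lt_of_lt_of_le hlt l1)).mpr (Or.inl hlt)
      omega
    · by_contra hlt
      push Not at hlt
      have := (key _ (lt_of_lt_of_le hlt l2)).mpr (Or.inr hlt)
      omega

lemma dist_pos {b k x y : ℕ} (hxy : x < y) (hy : y < b ^ k) : 1 ≤ dist b k x y := by
  have hk : 0 < k := by
    rcases Nat.eq_zero_or_pos k with rfl | h
    · simp at hy
      omega
    · exact h
  have := (lt_dist_iff (b := b) (x := x) (y := y) hk).mpr (by simp; omega)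
  omega

lemma dist_branch {b k : ℕ} (hb : 1 ≤ b) (R : Finset (Fin (b ^ k))) (d : ℕ)
    (h : ∀ x ∈ R, ∀ y ∈ R, x < y → dist b k x y = d) : R.card ≤ b := by
  by_cases h1 : R.card ≤ 1
  · omega
  push Not at h1
  obtain ⟨u, hu, v, hv, huv⟩ := Finset.one_lt_card.mp h1
  have hd : 1 ≤ d ∧ d ≤ k := by
    rcases lt_or_gt_of_ne huv with huv | huv
    · rw [← h u hu v hv huv]
      exact ⟨dist_pos huv v.2, dist_le _ _ _ _⟩
    · rw [← h v hv u hu huv]
      exact ⟨dist_pos huv u.2, dist_le _ _ _ _⟩
  have main : ∀ x ∈ R, ∀ y ∈ R, x < y →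
      (x : ℕ) / b ^ (d - 1) % b ≠ (y : ℕ) / b ^ (d - 1) % b := by
    intro x hx y hy hxy he
    have h2 := h x hx y hy hxy
    have h3 := (lt_dist_iff (b := b) (k := k) (x := x) (y := y) (j := d - 1) (by omega)).mp
      (by omega)
    have h4 : (x : ℕ) / b ^ (d - 1) / b = (y : ℕ) / b ^ (d - 1) / b := by
      rw [Nat.div_div_eq_div_mul, Nat.div_div_eq_div_mul, ← pow_succ,
        show d - 1 + 1 = d by omega]
      rcases Nat.lt_or_ge d k with hdk | hdk
      · by_contra hne
        have := (lt_dist_iff (b := b) (k := k) (x := x) (y := y) (j := d) hdk).mpr hne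
        omega
      · have hdk' : d = k := by omega
        rw [hdk', Nat.div_eq_of_lt x.2, Nat.div_eq_of_lt y.2]
    apply h3
    have e1 := Nat.div_add_mod ((x : ℕ) / b ^ (d - 1)) b
    have e2 := Nat.div_add_mod ((y : ℕ) / b ^ (d - 1)) b
    rw [← e1, ← e2, h4, he]
  have := Finset.card_le_card_of_injOn (s := R) (t := range b)
    (fun x => (x : ℕ) / b ^ (d - 1) % b)
    (fun x _ => Finset.mem_coe.mpr (Finset.mem_range.mpr (Nat.mod_lt _ (by omega)))) (by
      intro x hx y hy hxy
      by_contra hne
      rcases lt_or_gt_of_ne hne with h' | h'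
      · exact main x hx y hy h' hxy
      · exact main y hy x hx h' hxy.symm)
  rwa [Finset.card_range] at this

/-- the tree of the numbers with `k` digits in base `b` -/
def digitTree (b k : ℕ) (hb : 1 ≤ b) : Tree (Fin (b ^ k)) k b where
  D x y := dist b k x y
  ultra _ _ _ hxy hyz := dist_ultra b k (le_of_lt hxy) (le_of_lt hyz)
  pos _ y hxy := dist_pos hxy y.2
  le x y _ := dist_le b k x y
  branch R d h := dist_branch hb R d h

/-- the functions `x ↦ ⌊x / b ^ (j + 1)⌋`, `j < k` -/
def prefixes (b k : ℕ) : Fin k → Fin (b ^ (k + 1)) → ℕ := fun j x => (x : ℕ) / b ^ ((j : ℕ) + 1)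

lemma dist_self (b k x : ℕ) : dist b k x x = 0 := by
  unfold dist
  simp

lemma dist_eq_of_pattern (b k : ℕ) {x y x' y' : Fin (b ^ (k + 1))} (hxy : x ≠ y)
    (hxy' : x' ≠ y')
    (h : ∀ i : Fin k, prefixes b k i x = prefixes b k i y ↔
      prefixes b k i x' = prefixes b k i y') :
    dist b (k + 1) x y = dist b (k + 1) x' y' := by
  unfold dist
  congr 1
  apply Finset.filter_congr
  intro j hj
  rw [Finset.mem_range] at hj
  rcases Nat.eq_zero_or_pos j with rfl | hj0
  · simp only [pow_zero, Nat.div_one]
    constructor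
    · intro _ h'
      exact hxy' (Fin.ext h')
    · intro _ h'
      exact hxy (Fin.ext h')
  · have := h ⟨j - 1, by omega⟩
    simp only [prefixes, show j - 1 + 1 = j by omega] at this
    exact not_congr this

end Pool.Agent.H383.SF
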