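import Pool.Agent.H383.SF.Digits

/-!
# Lower bounds: stepping up in base `b`
-/

set_option autoImplicit false

namespace Pool.Agent.H383.SF

open Finset

variable {V : Type} [LinearOrder V] {k b : ℕ} (Tr : Tree V k b)

/-! ### Triples -/

/-- the heights increase in the triple -/
def Tree.Flag (S : Finset V) : Prop :=
  ∃ x ∈ S, ∃ y ∈ S, ∃ z ∈ S, x < y ∧ y < z ∧ Tr.D x y < Tr.D y z

lemma Tree.flag_triple {x y z : V} (hxy : x < y) (hyz : y < z) :
    Tr.Flag {x, y, z} ↔ Tr.D x y < Tr.D y z := by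
  constructor
  · rintro ⟨u, hu, v, hv, w, hw, huv, hvw, h⟩
    simp only [mem_insert, mem_singleton] at hu hv hw
    rcases hu with rfl | rfl | rfl <;> rcases hv with rfl | rfl | rfl <;>
      rcases hw with rfl | rfl | rfl <;> first | exact h | (exfalso; order)
  · intro h
    exact ⟨x, by simp, y, by simp, z, by simp, hxy, hyz, h⟩

lemma card_triple {x y z : V} (hxy : x < y) (hyz : y < z) : ({x, y, z} : Finset V).card = 3 := by
  rw [Finset.card_insert_of_notMem, Finset.card_insert_of_notMem, Finset.card_singleton]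
  · simp [ne_of_lt hyz]
  · simp [ne_of_lt hxy, ne_of_lt (hxy.trans hyz)]

open Classical in
/-- the colouring of the triples -/
noncomputable def Tree.c3 {κ : Type} (φ : Finset (Fin k) → κ) (S : Finset V) : κ × Bool :=
  (φ (Tr.Del S), decide (Tr.Flag S))

theorem c3_bound {κ : Type} (φ : Finset (Fin k) → κ) {s : ℕ} (hb : 2 ≤ b)
    (hφ : ∀ E, Homogeneous 2 φ E → E.card ≤ s) (H : Finset V) (hH : Homogeneous 3 (Tr.c3 φ) H) :
    H.card ≤ s * (b - 1) + 1 := by
  classical
  have hc : ∀ S ⊆ H, ∀ S' ⊆ H, S.card = 2 + 1 → S'.card = 2 + 1 →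
      φ (Tr.Del S) = φ (Tr.Del S') := by
    intro S hS S' hS' h1 h2
    exact (Prod.mk.inj (hH S hS S' hS' h1 h2)).1
  have hf : ∀ S ⊆ H, ∀ S' ⊆ H, S.card = 3 → S'.card = 3 → (Tr.Flag S ↔ Tr.Flag S') := by
    intro S hS S' hS' h1 h2
    have := (Prod.mk.inj (hH S hS S' hS' h1 h2)).2
    simpa using this
  have hsub : ∀ x ∈ H, ∀ y ∈ H, ∀ z ∈ H, ({x, y, z} : Finset V) ⊆ H := by
    intro x hx y hy z hz w hw
    simp only [mem_insert, mem_singleton] at hw
    rcases hw with rfl | rfl | rfl <;> assumption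
  by_cases hex : ∃ x ∈ H, ∃ y ∈ H, ∃ z ∈ H, x < y ∧ y < z ∧ Tr.D x y < Tr.D y z
  · obtain ⟨x, hx, y, hy, z, hz, hxy, hyz, hD⟩ := hex
    have h1 := ucat Tr φ hφ H (by
      intro x' hx' y' hy' z' hz' hxy' hyz'
      rw [← Tr.flag_triple hxy' hyz']
      rw [hf _ (hsub x' hx' y' hy' z' hz') _ (hsub x hx y hy z hz) (card_triple hxy' hyz')
        (card_triple hxy hyz), Tr.flag_triple hxy hyz]
      exact hD) hc
    have h2 : s * 1 ≤ s * (b - 1) := Nat.mul_le_mul_left _ (by omega)
    omega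
  · exact dcat Tr φ hφ H (by
      intro x hx y hy z hz hxy hyz
      by_contra hlt
      push Not at hlt
      exact hex ⟨x, hx, y, hy, z, hz, hxy, hyz, hlt⟩) hc

/-! ### Uniformity at least four -/

/-- `w < x < y < z` are the four smallest elements of `S` -/
def First4 (S : Finset V) (w x y z : V) : Prop :=
  w ∈ S ∧ x ∈ S ∧ y ∈ S ∧ z ∈ S ∧ w < x ∧ x < y ∧ y < z ∧
    ∀ v ∈ S, v = w ∨ v = x ∨ v = y ∨ z ≤ v

lemma First4.unique {S : Finset V} {w x y z w' x' y' z' : V} (h : First4 S w x y z)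
    (h' : First4 S w' x' y' z') : w = w' ∧ x = x' ∧ y = y' ∧ z = z' := by
  obtain ⟨h1, h2, h3, h4, h5, h6, h7, h8⟩ := h
  obtain ⟨g1, g2, g3, g4, g5, g6, g7, g8⟩ := h'
  have hw : w = w' := by
    have a1 := h8 w' g1
    have a2 := g8 w h1
    rcases a1 with a1 | a1 | a1 | a1 <;> rcases a2 with a2 | a2 | a2 | a2 <;> order
  subst hw
  have hx : x = x' := by
    have a1 := h8 x' g2
    have a2 := g8 x h2
    rcases a1 with a1 | a1 | a1 | a1 <;> rcases a2 with a2 | a2 | a2 | a2 <;> order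
  subst hx
  have hy : y = y' := by
    have a1 := h8 y' g3
    have a2 := g8 y h3
    rcases a1 with a1 | a1 | a1 | a1 <;> rcases a2 with a2 | a2 | a2 | a2 <;> order
  subst hy
  have hz : z = z' := by
    have a1 := h8 z' g4
    have a2 := g8 z h4
    rcases a1 with a1 | a1 | a1 | a1 <;> rcases a2 with a2 | a2 | a2 | a2 <;> order
  exact ⟨rfl, rfl, rfl, hz⟩

/-- the heights of the four smallest elements increase and then do not increase -/
def Tree.Peak (S : Finset V) : Prop :=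
  ∃ w x y z, First4 S w x y z ∧ Tr.D w x < Tr.D x y ∧ Tr.D y z ≤ Tr.D x y

/-- the heights of the four smallest elements do not increase and then increase -/
def Tree.Valley (S : Finset V) : Prop :=
  ∃ w x y z, First4 S w x y z ∧ Tr.D x y ≤ Tr.D w x ∧ Tr.D x y < Tr.D y z

open Classical in
/-- the colouring of the `r`-sets, `r ≥ 4` -/
noncomputable def Tree.c4 {κ : Type} (p q : κ) (φ : Finset (Fin k) → κ) (S : Finset V) : κ :=
  if Tr.Peak S then p else if Tr.Valley S then q else φ (Tr.Del S)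

lemma Tree.c4_peak {κ : Type} (p q : κ) (φ : Finset (Fin k) → κ) {S : Finset V}
    (h : Tr.Peak S) : Tr.c4 p q φ S = p := by
  unfold Tree.c4
  rw [if_pos h]

lemma Tree.c4_valley {κ : Type} (p q : κ) (φ : Finset (Fin k) → κ) {S : Finset V}
    (h : Tr.Valley S) : Tr.c4 p q φ S = q := by
  unfold Tree.c4
  rw [if_neg, if_pos h]
  rintro ⟨w', x', y', z', h4', h1', h2'⟩
  obtain ⟨w, x, y, z, h4, h1, h2⟩ := h
  obtain ⟨rfl, rfl, rfl, rfl⟩ := h4.unique h4'
  omega

lemma Tree.c4_else {κ : Type} (p q : κ) (φ : Finset (Fin k) → κ) {S : Finset V}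
    (h1 : ¬ Tr.Peak S) (h2 : ¬ Tr.Valley S) : Tr.c4 p q φ S = φ (Tr.Del S) := by
  unfold Tree.c4
  rw [if_neg h1, if_neg h2]

/-- the last `m` elements of a set -/
lemma exists_last (H : Finset V) : ∀ m ≤ H.card, ∃ L ⊆ H, L.card = m ∧
    ∀ x ∈ H, x ∉ L → ∀ y ∈ L, x < y
  | 0, _ => ⟨∅, by simp, by simp, by simp⟩
  | m + 1, hm => by
      classical
      obtain ⟨L, hL, hLc, hlt⟩ := exists_last H m (by omega)
      have hne : (H \ L).Nonempty := by
        rw [← Finset.card_pos, Finset.card_sdiff_of_subset hL]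
        omega
      set M := (H \ L).max' hne
      have hM := (H \ L).max'_mem hne
      obtain ⟨hM1, hM2⟩ := Finset.mem_sdiff.mp hM
      refine ⟨insert M L, ?_, ?_, ?_⟩
      · intro x hx
        rcases Finset.mem_insert.mp hx with rfl | hx
        · exact hM1
        · exact hL hx
      · rw [Finset.card_insert_of_notMem hM2, hLc]
      · intro x hx hxL y hy
        rw [Finset.mem_insert, not_or] at hxL
        rcases Finset.mem_insert.mp hy with rfl | hy
        · exact lt_of_le_of_ne ((H \ L).le_max' x (Finset.mem_sdiff.mpr ⟨hx, hxL.2⟩)) hxL.1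
        · exact hlt x hx hxL.2 y hy

/-- an increasing enumeration of a finite set by natural numbers -/
lemma exists_enum (H : Finset V) (hne : H.Nonempty) : ∃ X : ℕ → V,
    (∀ i j, i < j → j < H.card → X i < X j) ∧ (∀ i < H.card, X i ∈ H) ∧
      ∀ x ∈ H, ∃ i < H.card, X i = x := by
  obtain ⟨v₀, _⟩ := hne
  refine ⟨fun i => if h : i < H.card then H.orderEmbOfFin rfl ⟨i, h⟩ else v₀, ?_, ?_, ?_⟩
  · intro i j hij hj
    simp only [dif_pos hj, dif_pos (hij.trans hj)]
    exact (H.orderEmbOfFin rfl).strictMono hij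
  · intro i hi
    simp only [dif_pos hi]
    exact Finset.orderEmbOfFin_mem _ _ _
  · intro x hx
    have : x ∈ Set.range (H.orderEmbOfFin rfl) := by
      rw [Finset.range_orderEmbOfFin]
      exact hx
    obtain ⟨i, rfl⟩ := this
    exact ⟨i, i.2, by simp only [dif_pos i.2]⟩

section seq

variable (X : ℕ → V) {a e : ℕ} (hX : ∀ i j, i < j → j < e → X i < X j)

include hX

lemma seqD (hd : ∀ i, a ≤ i → i + 2 < e → Tr.D (X (i + 1)) (X (i + 2)) ≤ Tr.D (X i) (X (i + 1)))
    {i : ℕ} (hi : a ≤ i) : ∀ j, i < j → j < e → Tr.D (X i) (X j) = Tr.D (X i) (X (i + 1)) ∧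
      (j + 1 < e → Tr.D (X j) (X (j + 1)) ≤ Tr.D (X i) (X (i + 1))) := by
  intro j hij
  induction j, hij using Nat.le_induction with
  | base =>
    intro _
    exact ⟨rfl, fun h => hd i hi h⟩
  | succ j hj ih =>
    intro hje
    obtain ⟨h1, h2⟩ := ih (by omega)
    have h3 := h2 hje
    refine ⟨?_, fun h => ?_⟩
    · rw [Tr.ultra (X i) (X j) (X (j + 1)) (hX _ _ (by omega) (by omega))
        (hX _ _ (by omega) (by omega)), h1, max_eq_left h3]
    · exact (hd j (by omega) h).trans h3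

lemma seqU (hd : ∀ i, a ≤ i → i + 2 < e → Tr.D (X i) (X (i + 1)) < Tr.D (X (i + 1)) (X (i + 2)))
    {i : ℕ} (hi : a ≤ i) : ∀ j, i < j → j < e → Tr.D (X i) (X j) = Tr.D (X (j - 1)) (X j) := by
  intro j hij
  induction j, hij using Nat.le_induction with
  | base =>
    intro _
    simp
  | succ j hj ih =>
    intro hje
    have h1 := ih (by omega)
    have h2 := hd (j - 1) (by omega) (by omega)
    rw [show j - 1 + 1 = j by omega, show j - 1 + 2 = j + 1 by omega] at h2
    rw [Tr.ultra (X i) (X j) (X (j + 1)) (hX _ _ (by omega) (by omega))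
        (hX _ _ (by omega) (by omega)), h1, max_eq_right h2.le]
    simp

lemma seqU_mono (hd : ∀ i, a ≤ i → i + 2 < e →
    Tr.D (X i) (X (i + 1)) < Tr.D (X (i + 1)) (X (i + 2)))
    {i : ℕ} (hi : a ≤ i) : ∀ j, i < j → j + 1 < e →
      Tr.D (X i) (X (i + 1)) < Tr.D (X j) (X (j + 1)) := by
  intro j hij
  induction j, hij using Nat.le_induction with
  | base =>
    intro h
    exact hd i hi h
  | succ j hj ih =>
    intro hje
    exact (ih (by omega)).trans (hd j (by omega) hje)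

/-- the elements with indices in `[a, e)` form a set with non-increasing heights -/
lemma image_dcat (hd : ∀ i, a ≤ i → i + 2 < e →
    Tr.D (X (i + 1)) (X (i + 2)) ≤ Tr.D (X i) (X (i + 1))) :
    ∀ x ∈ (Finset.Ico a e).image X, ∀ y ∈ (Finset.Ico a e).image X,
      ∀ z ∈ (Finset.Ico a e).image X, x < y → y < z → Tr.D y z ≤ Tr.D x y := by
  have hlt : ∀ i j, i < e → j < e → X i < X j → i < j := by
    intro i j hi hj h
    by_contra hij
    rcases Nat.lt_or_ge j i with h' | h'
    · exact lt_asymm h (hX _ _ h' hi)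
    · have : i = j := by omega
      rw [this] at h
      exact lt_irrefl _ h
  intro x hx y hy z hz hxy hyz
  obtain ⟨i, hi, rfl⟩ := Finset.mem_image.mp hx
  obtain ⟨j, hj, rfl⟩ := Finset.mem_image.mp hy
  obtain ⟨l, hl, rfl⟩ := Finset.mem_image.mp hz
  rw [Finset.mem_Ico] at hi hj hl
  have hij := hlt i j hi.2 hj.2 hxy
  have hjl := hlt j l hj.2 hl.2 hyz
  obtain ⟨h1, h2⟩ := seqD Tr X hX hd hi.1 j hij hj.2
  obtain ⟨h3, _⟩ := seqD Tr X hX hd hj.1 l hjl hl.2
  rw [h1, h3]
  exact h2 (by omega)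

/-- the elements with indices in `[a, e)` form a set with increasing heights -/
lemma image_ucat (hd : ∀ i, a ≤ i → i + 2 < e →
    Tr.D (X i) (X (i + 1)) < Tr.D (X (i + 1)) (X (i + 2))) :
    ∀ x ∈ (Finset.Ico a e).image X, ∀ y ∈ (Finset.Ico a e).image X,
      ∀ z ∈ (Finset.Ico a e).image X, x < y → y < z → Tr.D x y < Tr.D y z := by
  have hlt : ∀ i j, i < e → j < e → X i < X j → i < j := by
    intro i j hi hj h
    by_contra hij
    rcases Nat.lt_or_ge j i with h' | h'
    · exact lt_asymm h (hX _ _ h' hi)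
    · have : i = j := by omega
      rw [this] at h
      exact lt_irrefl _ h
  intro x hx y hy z hz hxy hyz
  obtain ⟨i, hi, rfl⟩ := Finset.mem_image.mp hx
  obtain ⟨j, hj, rfl⟩ := Finset.mem_image.mp hy
  obtain ⟨l, hl, rfl⟩ := Finset.mem_image.mp hz
  rw [Finset.mem_Ico] at hi hj hl
  have hij := hlt i j hi.2 hj.2 hxy
  have hjl := hlt j l hj.2 hl.2 hyz
  rw [seqU Tr X hX hd hi.1 j hij hj.2, seqU Tr X hX hd hj.1 l hjl hl.2]
  have := seqU_mono Tr X hX hd (i := j - 1) (by omega) (l - 1) (by omega) (by omega)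
  rwa [show j - 1 + 1 = j by omega, show l - 1 + 1 = l by omega] at this

end seq

end Pool.Agent.H383.SF
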