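import Pool.Agent.H383.SF.Upper
import Pool.Agent.H383.SF.Lower

/-!
# The sunflower conjecture and colourings determined by equality patterns
-/

set_option autoImplicit false

namespace Pool.Agent.H383.SF

open Finset

/-- the number of the maps which are injective on a `k`-element set -/
lemma count_injOn {α : Type} [Fintype α] [DecidableEq α] (k : ℕ) (S : Finset α)
    (hS : S.card = k) :
    (univ.filter fun h : α → Fin k => Set.InjOn h S).card * k ^ k =
      k.factorial * k ^ Fintype.card α := by
  classical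
  have e := Equiv.piEquivPiSubtypeProd (fun a => a ∈ S) (fun _ : α => Fin k)
  have h1 : (univ.filter fun h : α → Fin k => Set.InjOn h S).card =
      (univ.filter fun g : ({x // x ∈ S} → Fin k) × ({x // x ∉ S} → Fin k) =>
        Function.Injective g.1).card := by
    apply Finset.card_equiv (Equiv.piEquivPiSubtypeProd (fun a => a ∈ S) (fun _ : α => Fin k))
    intro h
    simp only [mem_filter, mem_univ, true_and]
    constructor
    · intro hi x y hxy
      exact Subtype.ext (hi x.2 y.2 hxy)
    · intro hi x hx y hy hxy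
      have := @hi ⟨x, hx⟩ ⟨y, hy⟩ hxy
      exact congrArg Subtype.val this
  have h2 : (univ.filter fun g : ({x // x ∈ S} → Fin k) × ({x // x ∉ S} → Fin k) =>
        Function.Injective g.1) =
      (univ.filter fun g : {x // x ∈ S} → Fin k => Function.Injective g) ×ˢ
        (univ : Finset ({x // x ∉ S} → Fin k)) := by
    ext g
    simp
  have h3 : (univ.filter fun g : {x // x ∈ S} → Fin k => Function.Injective g).card =
      k.factorial := by
    have h4 := Fintype.card_embedding_eq (α := {x // x ∈ S}) (β := Fin k)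
    rw [Fintype.card_fin, Fintype.card_coe, hS, Nat.descFactorial_self] at h4
    rw [← h4, ← Fintype.card_subtype]
    exact Fintype.card_congr (Equiv.subtypeInjectiveEquivEmbedding _ _)
  have h5 : Fintype.card {x // x ∉ S} + k = Fintype.card α := by
    rw [Fintype.card_subtype_compl, Fintype.card_coe, hS]
    have := Finset.card_le_univ S
    omega
  rw [h1, h2, Finset.card_product, h3, Finset.card_univ, Fintype.card_fun, Fintype.card_fin,
    mul_assoc, ← pow_add, h5]

lemma pow_le_three (k : ℕ) : k ^ k ≤ 3 ^ k * k.factorial := by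
  have h1 := Real.pow_div_factorial_le_exp (k : ℝ) (by positivity) k
  have h2 : Real.exp (k : ℝ) = Real.exp 1 ^ k := by
    rw [← Real.exp_nat_mul, mul_one]
  have h3 : Real.exp 1 ≤ 3 := by
    have := Real.exp_one_lt_d9
    linarith
  have h4 : Real.exp 1 ^ k ≤ 3 ^ k := pow_le_pow_left₀ (Real.exp_pos 1).le h3 k
  have h5 : (k : ℝ) ^ k ≤ 3 ^ k * k.factorial := by
    rw [div_le_iff₀ (by exact_mod_cast Nat.factorial_pos k)] at h1
    rw [h2] at h1
    exact h1.trans (mul_le_mul_of_nonneg_right h4 (by positivity))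
  exact_mod_cast h5

open Classical in
/-- a family of `k`-sets has a large `k`-partite subfamily -/
lemma exists_partite {α : Type} [Fintype α] [DecidableEq α] (k B : ℕ) (hk : 1 ≤ k)
    (F : Finset (Finset α)) (hF : ∀ S ∈ F, S.card = k) (hB : 3 ^ k * B < F.card) :
    ∃ h : α → Fin k, B < (F.filter fun S : Finset α => Set.InjOn h (S : Set α)).card := by
  by_contra hcon
  push Not at hcon
  have hdc := Finset.sum_card_bipartiteAbove_eq_sum_card_bipartiteBelow
    (s := F) (t := (univ : Finset (α → Fin k))) (fun (S : Finset α) (h : α → Fin k) =>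
      Set.InjOn h S)
  have h1 : ∑ S ∈ F, (Finset.bipartiteAbove (fun (S : Finset α) (h : α → Fin k) =>
      Set.InjOn h S) univ S).card * k ^ k = F.card * (k.factorial * k ^ Fintype.card α) := by
    rw [Finset.sum_congr rfl (g := fun _ => k.factorial * k ^ Fintype.card α)]
    · rw [Finset.sum_const, smul_eq_mul]
    · intro S hS
      rw [← count_injOn k S (hF S hS)]
      rfl
  have h2 : ∑ h : α → Fin k, (Finset.bipartiteBelow (fun (S : Finset α) (h : α → Fin k) =>
      Set.InjOn h S) F h).card ≤ k ^ Fintype.card α * B := by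
    calc ∑ h : α → Fin k, (Finset.bipartiteBelow (fun (S : Finset α) (h : α → Fin k) =>
          Set.InjOn h S) F h).card ≤ ∑ _h : α → Fin k, B :=
          Finset.sum_le_sum fun h _ => hcon h
      _ = k ^ Fintype.card α * B := by
          rw [Finset.sum_const, smul_eq_mul, Finset.card_univ, Fintype.card_fun,
            Fintype.card_fin]
  rw [← hdc] at h2
  have h3 : F.card * (k.factorial * k ^ Fintype.card α) ≤ k ^ Fintype.card α * B * k ^ k := by
    rw [← h1, ← Finset.sum_mul]
    exact Nat.mul_le_mul_right _ h2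
  have h4 : F.card * k.factorial ≤ B * k ^ k := by
    have hpos : 0 < k ^ Fintype.card α := by positivity
    apply Nat.le_of_mul_le_mul_left _ hpos
    calc k ^ Fintype.card α * (F.card * k.factorial)
        = F.card * (k.factorial * k ^ Fintype.card α) := by ring
      _ ≤ k ^ Fintype.card α * B * k ^ k := h3
      _ = _ := by ring
  have h5 : F.card * k.factorial ≤ 3 ^ k * B * k.factorial := by
    calc F.card * k.factorial ≤ B * k ^ k := h4
      _ ≤ B * (3 ^ k * k.factorial) := Nat.mul_le_mul_left _ (pow_le_three k)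
      _ = _ := by ring
  have h6 := Nat.le_of_mul_le_mul_right h5 (Nat.factorial_pos k)
  omega

/-- `x < y` are the two smallest elements of `S` -/
def First2 {V : Type} [LinearOrder V] (S : Finset V) (x y : V) : Prop :=
  x ∈ S ∧ y ∈ S ∧ x < y ∧ ∀ v ∈ S, v = x ∨ y ≤ v

lemma First2.unique {V : Type} [LinearOrder V] {S : Finset V} {x y x' y' : V}
    (h : First2 S x y) (h' : First2 S x' y') : x = x' ∧ y = y' := by
  obtain ⟨h1, h2, h3, h4⟩ := h
  obtain ⟨g1, g2, g3, g4⟩ := h'
  have hx : x = x' := by
    have a1 := h4 x' g1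
    have a2 := g4 x h1
    rcases a1 with a1 | a1 <;> rcases a2 with a2 | a2 <;> order
  subst hx
  refine ⟨rfl, ?_⟩
  have a1 := h4 y' g2
  have a2 := g4 y h2
  rcases a1 with a1 | a1 <;> rcases a2 with a2 | a2 <;> order

open Classical in
/-- the equality pattern of the two smallest elements -/
noncomputable def cpair {k N : ℕ} (f : Fin k → Fin N → ℕ) (S : Finset (Fin N)) :
    Finset (Fin k) :=
  univ.filter fun i => ∃ x y, First2 S x y ∧ f i x = f i y

lemma cpair_of_first2 {k N : ℕ} (f : Fin k → Fin N → ℕ) {S : Finset (Fin N)} {x y : Fin N}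
    (h : First2 S x y) (i : Fin k) : i ∈ cpair f S ↔ f i x = f i y := by
  classical
  unfold cpair
  rw [Finset.mem_filter]
  constructor
  · rintro ⟨-, x', y', h', he⟩
    obtain ⟨rfl, rfl⟩ := h.unique h'
    exact he
  · intro he
    exact ⟨mem_univ _, x, y, h, he⟩

lemma cpair_determined {k N : ℕ} (r : ℕ) (f : Fin k → Fin N → ℕ) (g : Fin 0 → Fin N → ℕ) :
    Determined r f g (cpair f) := by
  classical
  intro x y hx hy hf _
  have key : ∀ x y : Fin r → Fin N, StrictMono x → StrictMono y →
      (∀ i a b, f i (x a) = f i (x b) ↔ f i (y a) = f i (y b)) →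
      ∀ i, i ∈ cpair f (univ.image x) → i ∈ cpair f (univ.image y) := by
    intro x y hx hy hf i hi
    unfold cpair at hi ⊢
    rw [Finset.mem_filter] at hi ⊢
    obtain ⟨-, u, v, ⟨h1, h2, h3, h4⟩, he⟩ := hi
    obtain ⟨a, -, rfl⟩ := Finset.mem_image.mp h1
    obtain ⟨a', -, rfl⟩ := Finset.mem_image.mp h2
    refine ⟨mem_univ _, y a, y a', ⟨Finset.mem_image_of_mem _ (mem_univ _),
      Finset.mem_image_of_mem _ (mem_univ _), hy (hx.lt_iff_lt.mp h3), ?_⟩, (hf i a a').mp he⟩
    intro w hw
    obtain ⟨l, -, rfl⟩ := Finset.mem_image.mp hw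
    rcases h4 (x l) (Finset.mem_image_of_mem _ (mem_univ _)) with h | h
    · exact Or.inl (by rw [hx.injective h])
    · exact Or.inr (hy.le_iff_le.mpr (hx.le_iff_le.mp h))
  ext i
  exact ⟨key x y hx hy hf i, key y x hy hx (fun i a b => (hf i a b).symm) i⟩

theorem equality_of_sunflower {r n C : ℕ} (h : SunflowerBound n C) :
    EqualityBound r n (n * C + n) := by
  intro k N κ f g c hk hc hN
  obtain ⟨U, T, hUc, hU⟩ := functions_of_sunflower k n (C ^ k) f
    (fun M F hF hbig => h k _ F hk hF hbig) (by
      rw [Fintype.card_fin]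
      refine lt_of_le_of_lt ?_ hN
      rcases Nat.eq_zero_or_pos n with rfl | hn
      · simp
      · calc (n - 1) * C ^ k ≤ n ^ k * C ^ k := by
              apply Nat.mul_le_mul_right
              calc n - 1 ≤ n := Nat.sub_le _ _
                _ = n ^ 1 := (pow_one n).symm
                _ ≤ n ^ k := Nat.pow_le_pow_right hn hk
          _ = (n * C) ^ k := (mul_pow _ _ _).symm
          _ ≤ (n * C + n) ^ k := Nat.pow_le_pow_left (by omega) _)
  exact ⟨U, hUc, homogeneous_of_pattern hc U T hU⟩

theorem sunflower_of_equality {r n C : ℕ} (hr : 2 ≤ r)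
    (h : EqualityBound r (n + (r - 2)) C) : SunflowerBound n (3 * C) := by
  classical
  intro k α _ _ F hk hF hbig
  rw [mul_pow] at hbig
  obtain ⟨p, hp⟩ := exists_partite k (C ^ k) hk F hF hbig
  set F' := F.filter (fun S : Finset α => Set.InjOn p (S : Set α)) with hF'
  have hsurj : ∀ S ∈ F', ∀ i : Fin k, ∃ x ∈ S, p x = i := by
    intro S hS i
    obtain ⟨h1, h2⟩ := Finset.mem_filter.mp hS
    have h3 : (S.image p).card = Fintype.card (Fin k) := by
      rw [Finset.card_image_of_injOn h2, hF S h1, Fintype.card_fin]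
    have h4 : S.image p = univ := Finset.eq_univ_of_card _ h3
    have h5 : i ∈ S.image p := by
      rw [h4]
      exact mem_univ _
    obtain ⟨x, hx, hxi⟩ := Finset.mem_image.mp h5
    exact ⟨x, hx, hxi⟩
  -- an enumeration of the family
  let en : Fin F'.card ≃ F' := F'.equivFin.symm
  let num : α ≃ Fin (Fintype.card α) := Fintype.equivFin α
  have hpt : ∀ (v : Fin F'.card) (i : Fin k), ∃ x, x ∈ (en v : Finset α) ∧ p x = i := by
    intro v i
    obtain ⟨x, hx, hxi⟩ := hsurj _ (en v).2 i
    exact ⟨x, hx, hxi⟩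
  choose pt hpt1 hpt2 using hpt
  have hpt3 : ∀ v i, ∀ x ∈ (en v : Finset α), p x = i → x = pt v i := by
    intro v i x hx hxi
    have h1 := (Finset.mem_filter.mp (en v).2).2
    exact h1 hx (hpt1 v i) (by rw [hxi, hpt2])
  let f : Fin k → Fin F'.card → ℕ := fun i v => (num (pt v i) : ℕ)
  have hf : ∀ i u v, f i u = f i v ↔ pt u i = pt v i := by
    intro i u v
    simp only [f]
    constructor
    · intro he
      exact num.injective (Fin.ext he)
    · intro he
      rw [he]
  obtain ⟨H, hHc, hH⟩ := h k F'.card (Finset (Fin k)) f (fun j => j.elim0) (cpair f) hk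
    (cpair_determined r f _) hp
  obtain ⟨L, hL, hLc, hlast⟩ := exists_last H (r - 2) (by omega)
  have hcard : (H \ L).card = n := by
    rw [Finset.card_sdiff_of_subset hL, hLc]
    omega
  have hpair : ∀ u ∈ H \ L, ∀ v ∈ H \ L, u < v → ({u, v} ∪ L) ⊆ H ∧
      ({u, v} ∪ L).card = r ∧ First2 ({u, v} ∪ L) u v := by
    intro u hu v hv huv
    obtain ⟨hu1, hu2⟩ := Finset.mem_sdiff.mp hu
    obtain ⟨hv1, hv2⟩ := Finset.mem_sdiff.mp hv
    refine ⟨?_, ?_, by simp, by simp, huv, ?_⟩
    · intro w hw
      rcases Finset.mem_union.mp hw with hw | hw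
      · simp only [mem_insert, mem_singleton] at hw
        rcases hw with rfl | rfl
        · exact hu1
        · exact hv1
      · exact hL hw
    · rw [Finset.card_union_of_disjoint, Finset.card_pair huv.ne, hLc]
      · omega
      · rw [Finset.disjoint_left]
        intro w hw hwL
        simp only [mem_insert, mem_singleton] at hw
        rcases hw with rfl | rfl
        · exact hu2 hwL
        · exact hv2 hwL
    · intro w hw
      rcases Finset.mem_union.mp hw with hw | hw
      · simp only [mem_insert, mem_singleton] at hw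
        rcases hw with rfl | rfl
        · exact Or.inl rfl
        · exact Or.inr le_rfl
      · exact Or.inr (hlast v hv1 hv2 w hw).le
  -- the common type
  have htype : ∃ T : Finset (Fin k), ∀ u ∈ H \ L, ∀ v ∈ H \ L, u ≠ v →
      ∀ i, (pt u i = pt v i ↔ i ∈ T) := by
    by_cases hex : ∃ u ∈ H \ L, ∃ v ∈ H \ L, u < v
    · obtain ⟨u₀, hu₀, v₀, hv₀, huv₀⟩ := hex
      obtain ⟨a1, a2, a3⟩ := hpair u₀ hu₀ v₀ hv₀ huv₀
      refine ⟨cpair f ({u₀, v₀} ∪ L), ?_⟩
      have key : ∀ u ∈ H \ L, ∀ v ∈ H \ L, u < v →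
          ∀ i, (pt u i = pt v i ↔ i ∈ cpair f ({u₀, v₀} ∪ L)) := by
        intro u hu v hv huv i
        obtain ⟨b1, b2, b3⟩ := hpair u hu v hv huv
        rw [← hH _ b1 _ a1 b2 a2, cpair_of_first2 f b3, hf]
      intro u hu v hv huv i
      rcases lt_or_gt_of_ne huv with h' | h'
      · exact key u hu v hv h' i
      · rw [← key v hv u hu h' i]
        exact ⟨Eq.symm, Eq.symm⟩
    · refine ⟨∅, ?_⟩
      intro u hu v hv huv
      exfalso
      rcases lt_or_gt_of_ne huv with h' | h'
      · exact hex ⟨u, hu, v, hv, h'⟩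
      · exact hex ⟨v, hv, u, hu, h'⟩
  obtain ⟨T, hT⟩ := htype
  refine ⟨if hne : (H \ L).Nonempty then T.image (pt hne.choose) else ∅,
    (H \ L).image fun v => (en v : Finset α), ?_, ?_, ?_⟩
  · intro A hA
    obtain ⟨v, -, rfl⟩ := Finset.mem_image.mp hA
    exact (Finset.mem_filter.mp (en v).2).1
  · rw [Finset.card_image_of_injective, hcard]
    intro u v huv
    exact en.injective (Subtype.ext huv)
  · intro A hA A' hA' hne
    obtain ⟨u, hu, rfl⟩ := Finset.mem_image.mp hA
    obtain ⟨v, hv, rfl⟩ := Finset.mem_image.mp hA'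
    have huv : u ≠ v := fun h => hne (by rw [h])
    have hn : (H \ L).Nonempty := ⟨u, hu⟩
    rw [dif_pos hn]
    set w := hn.choose with hw
    have hwm : w ∈ H \ L := hn.choose_spec
    have hTw : ∀ u ∈ H \ L, ∀ i ∈ T, pt w i = pt u i := by
      intro u hu i hi
      by_cases hwu : w = u
      · rw [hwu]
      · exact (hT w hwm u hu hwu i).mpr hi
    ext x
    rw [Finset.mem_inter, Finset.mem_image]
    constructor
    · rintro ⟨hx1, hx2⟩
      have e1 := hpt3 u (p x) x hx1 rfl
      have e2 := hpt3 v (p x) x hx2 rfl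
      have hi : p x ∈ T := (hT u hu v hv huv (p x)).mp (by rw [← e1, ← e2])
      exact ⟨p x, hi, by rw [hTw u hu _ hi, ← e1]⟩
    · rintro ⟨i, hi, rfl⟩
      constructor
      · rw [hTw u hu i hi]
        exact hpt1 u i
      · rw [hTw v hv i hi]
        exact hpt1 v i

theorem equivalence (r : ℕ) (hr : 2 ≤ r) :
    (∀ n, ∃ C, SunflowerBound n C) ↔ (∀ n, ∃ C, EqualityBound r n C) := by
  constructor
  · intro h n
    obtain ⟨C, hC⟩ := h n
    exact ⟨_, equality_of_sunflower hC⟩
  · intro h n
    obtain ⟨C, hC⟩ := h (n + (r - 2))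
    exact ⟨_, sunflower_of_equality hr hC⟩

end Pool.Agent.H383.SF
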