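import Pool.Agent.H383.SF.Lower

/-!
# Stepping up in base `b` with two colours
-/

set_option autoImplicit false

namespace Pool.Agent.H383.SF

open Finset

variable {V : Type} [LinearOrder V] {k b : ℕ} (Tr : Tree V k b)

lemma threshold (P : ℕ → Prop) (h : ℕ) (hP : ∀ i, i + 3 < h → P i → P (i + 1)) :
    ∃ p, (∀ i, i < p → i + 2 < h → ¬ P i) ∧ (∀ i, p ≤ i → i + 2 < h → P i) := by
  classical
  by_cases hex : ∃ i, i + 2 < h ∧ P i
  · refine ⟨Nat.find hex, fun i hi h2 h3 => Nat.find_min hex hi ⟨h2, h3⟩, ?_⟩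
    intro i hi
    induction i, hi using Nat.le_induction with
    | base => exact fun _ => (Nat.find_spec hex).2
    | succ j hj ih => exact fun h2 => hP j (by omega) (ih (by omega))
  · refine ⟨h, fun i _ h2 h3 => hex ⟨i, h2, h3⟩, fun i h1 h2 => by omega⟩

lemma first4_union {w x y z : V} {L : Finset V} (hwx : w < x) (hxy : x < y)
    (hyz : y < z) (hL : ∀ v ∈ L, z < v) : First4 ({w, x, y, z} ∪ L) w x y z := by
  refine ⟨by simp, by simp, by simp, by simp, hwx, hxy, hyz, ?_⟩
  intro v hv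
  rcases Finset.mem_union.mp hv with hv | hv
  · simp only [mem_insert, mem_singleton] at hv
    rcases hv with rfl | rfl | rfl | rfl
    · exact Or.inl rfl
    · exact Or.inr (Or.inl rfl)
    · exact Or.inr (Or.inr (Or.inl rfl))
    · exact Or.inr (Or.inr (Or.inr le_rfl))
  · exact Or.inr (Or.inr (Or.inr (hL v hv).le))

lemma card_quad {w x y z : V} {L : Finset V} (hwx : w < x) (hxy : x < y)
    (hyz : y < z) (hL : ∀ v ∈ L, z < v) : (({w, x, y, z} : Finset V) ∪ L).card = 4 + L.card := by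
  rw [Finset.card_union_of_disjoint]
  · congr 1
    rw [Finset.card_insert_of_notMem, card_triple hxy hyz]
    simp only [mem_insert, mem_singleton, not_or]
    exact ⟨hwx.ne, (hwx.trans hxy).ne, ((hwx.trans hxy).trans hyz).ne⟩
  · rw [Finset.disjoint_left]
    intro v hv hvL
    have := hL v hvL
    simp only [mem_insert, mem_singleton] at hv
    rcases hv with rfl | rfl | rfl | rfl <;> order

theorem c4_bound {κ : Type} (φ : Finset (Fin k) → κ) {p q : κ} (hpq : p ≠ q) {s r : ℕ}
    (hb : 2 ≤ b) (hr : 3 ≤ r) (hφ : ∀ E, Homogeneous r φ E → E.card ≤ s) (H : Finset V)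
    (hH : Homogeneous (r + 1) (Tr.c4 p q φ) H) : H.card ≤ s * b + (r - 2) := by
  classical
  by_cases hsmall : H.card ≤ r - 3
  · omega
  push Not at hsmall
  obtain ⟨L, hL, hLc, hlast⟩ := exists_last H (r - 3) (by omega)
  have hcard : (H \ L).card = H.card - (r - 3) := by
    rw [Finset.card_sdiff_of_subset hL, hLc]
  have hne : (H \ L).Nonempty := by
    rw [← Finset.card_pos]
    omega
  obtain ⟨X, hX, hXm, hXs⟩ := exists_enum (H \ L) hne
  set h := (H \ L).card with hh
  have hXL : ∀ i < h, ∀ v ∈ L, X i < v := by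
    intro i hi v hv
    obtain ⟨h1, h2⟩ := Finset.mem_sdiff.mp (hXm i hi)
    exact hlast _ h1 h2 v hv
  have hXH : ∀ i < h, X i ∈ H := fun i hi => (Finset.mem_sdiff.mp (hXm i hi)).1
  -- colours on quadruples
  have hquad : ∀ i, i + 3 < h → ({X i, X (i + 1), X (i + 2), X (i + 3)} ∪ L) ⊆ H ∧
      ({X i, X (i + 1), X (i + 2), X (i + 3)} ∪ L).card = r + 1 ∧
      First4 ({X i, X (i + 1), X (i + 2), X (i + 3)} ∪ L) (X i) (X (i + 1)) (X (i + 2))
        (X (i + 3)) := by
    intro i hi
    have h1 := hX i (i + 1) (by omega) (by omega)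
    have h2 := hX (i + 1) (i + 2) (by omega) (by omega)
    have h3 := hX (i + 2) (i + 3) (by omega) (by omega)
    refine ⟨?_, ?_, first4_union h1 h2 h3 (hXL _ hi)⟩
    · intro v hv
      rcases Finset.mem_union.mp hv with hv | hv
      · simp only [mem_insert, mem_singleton] at hv
        rcases hv with rfl | rfl | rfl | rfl <;> exact hXH _ (by omega)
      · exact hL hv
    · rw [card_quad h1 h2 h3 (hXL _ hi), hLc]
      omega
  set A : ℕ → Prop := fun i => Tr.D (X i) (X (i + 1)) < Tr.D (X (i + 1)) (X (i + 2)) with hA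
  have hnot : (∀ i, i + 3 < h → A i → A (i + 1)) ∨ (∀ i, i + 3 < h → ¬ A i → ¬ A (i + 1)) := by
    by_contra hcon
    rw [not_or] at hcon
    push Not at hcon
    obtain ⟨⟨i, hi, hi1, hi2⟩, ⟨j, hj, hj1, hj2⟩⟩ := hcon
    obtain ⟨a1, a2, a3⟩ := hquad i hi
    obtain ⟨b1, b2, b3⟩ := hquad j hj
    have e1 : Tr.c4 p q φ ({X i, X (i + 1), X (i + 2), X (i + 3)} ∪ L) = p := by
      apply Tr.c4_peak
      refine ⟨_, _, _, _, a3, hi1, ?_⟩
      exact not_lt.mp hi2
    have e2 : Tr.c4 p q φ ({X j, X (j + 1), X (j + 2), X (j + 3)} ∪ L) = q := by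
      apply Tr.c4_valley
      refine ⟨_, _, _, _, b3, ?_, hj2⟩
      exact not_lt.mp hj1
    have := hH _ a1 _ b1 a2 b2
    rw [e1, e2] at this
    exact hpq this
  -- images
  have himc : ∀ a e, e ≤ h → ((Finset.Ico a e).image X).card = e - a := by
    intro a e he
    rw [Finset.card_image_of_injOn, Nat.card_Ico]
    intro i hi j hj hij
    rw [Finset.mem_coe, Finset.mem_Ico] at hi hj
    by_contra hne
    rcases lt_or_gt_of_ne hne with h' | h'
    · have := hX i j h' (by omega)
      rw [hij] at this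
      exact lt_irrefl _ this
    · have := hX j i h' (by omega)
      rw [hij] at this
      exact lt_irrefl _ this
  have himH : ∀ a e, e ≤ h → (Finset.Ico a e).image X ⊆ H := by
    intro a e he x hx
    obtain ⟨i, hi, rfl⟩ := Finset.mem_image.mp hx
    rw [Finset.mem_Ico] at hi
    exact hXH i (by omega)
  have hDc : ∀ a e, e ≤ h → (∀ i, a ≤ i → i + 2 < e → ¬ A i) → e - a ≤ s * (b - 1) + 1 := by
    intro a e he hd
    have hcat := image_dcat Tr X (a := a) (e := e) (fun i j hij hj => hX i j hij (by omega))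
      (fun i hi hi2 => not_lt.mp (hd i hi hi2))
    rw [← himc a e he]
    refine dcat Tr φ hφ _ hcat ?_
    have key : ∀ S ⊆ (Finset.Ico a e).image X, Tr.c4 p q φ S = φ (Tr.Del S) := by
      intro S hS
      apply Tr.c4_else
      · rintro ⟨w, x, y, z, ⟨h1, h2, h3, h4, h5, h6, h7, -⟩, h8, h9⟩
        have := hcat w (hS h1) x (hS h2) y (hS h3) h5 h6
        omega
      · rintro ⟨w, x, y, z, ⟨h1, h2, h3, h4, h5, h6, h7, -⟩, h8, h9⟩
        have := hcat x (hS h2) y (hS h3) z (hS h4) h6 h7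
        omega
    intro S hS S' hS' h1 h2
    rw [← key S hS, ← key S' hS']
    exact hH S (hS.trans (himH a e he)) S' (hS'.trans (himH a e he)) h1 h2
  have hUc : ∀ a e, e ≤ h → (∀ i, a ≤ i → i + 2 < e → A i) → e - a ≤ s + 1 := by
    intro a e he hd
    have hcat := image_ucat Tr X (a := a) (e := e) (fun i j hij hj => hX i j hij (by omega)) hd
    rw [← himc a e he]
    refine ucat Tr φ hφ _ hcat ?_
    have key : ∀ S ⊆ (Finset.Ico a e).image X, Tr.c4 p q φ S = φ (Tr.Del S) := by
      intro S hS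
      apply Tr.c4_else
      · rintro ⟨w, x, y, z, ⟨h1, h2, h3, h4, h5, h6, h7, -⟩, h8, h9⟩
        have := hcat x (hS h2) y (hS h3) z (hS h4) h6 h7
        omega
      · rintro ⟨w, x, y, z, ⟨h1, h2, h3, h4, h5, h6, h7, -⟩, h8, h9⟩
        have := hcat w (hS h1) x (hS h2) y (hS h3) h5 h6
        omega
    intro S hS S' hS' h1 h2
    rw [← key S hS, ← key S' hS']
    exact hH S (hS.trans (himH a e he)) S' (hS'.trans (himH a e he)) h1 h2
  have hsb : s * (b - 1) + s = s * b := by
    obtain ⟨b', rfl⟩ : ∃ b', b = b' + 1 := ⟨b - 1, by omega⟩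
    simp
    ring
  have hmain : h ≤ s * b + 1 := by
    rcases hnot with hn | hn
    · obtain ⟨p0, hp1, hp2⟩ := threshold A h hn
      rcases Nat.lt_or_ge (p0 + 1) h with hlt | hge
      · have h1 := hDc 0 (p0 + 2) (by omega) (fun i _ hi => hp1 i (by omega) (by omega))
        have h2 := hUc (p0 + 1) h le_rfl (fun i hi hi2 => hp2 i (by omega) hi2)
        omega
      · have h1 := hDc 0 h le_rfl (fun i _ hi => hp1 i (by omega) (by omega))
        omega
    · obtain ⟨p0, hp1, hp2⟩ := threshold (fun i => ¬ A i) h hn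
      rcases Nat.lt_or_ge (p0 + 1) h with hlt | hge
      · have h1 := hUc 0 (p0 + 2) (by omega)
          (fun i _ hi => not_not.mp (hp1 i (by omega) (by omega)))
        have h2 := hDc (p0 + 1) h le_rfl (fun i hi hi2 => hp2 i (by omega) hi2)
        omega
      · have h1 := hUc 0 h le_rfl (fun i _ hi => not_not.mp (hp1 i (by omega) (by omega)))
        have h2 : s * 1 ≤ s * b := Nat.mul_le_mul_left _ (by omega)
        omega
  omega

/-! ### The colourings on numbers are determined by the prefixes -/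

section det

variable {b : ℕ} (k : ℕ) (hb : 1 ≤ b)

lemma pattern_dist {R : ℕ} {x y : Fin R → Fin (b ^ (k + 1))} (hx : StrictMono x)
    (hy : StrictMono y)
    (h : ∀ (i : Fin k) a a', prefixes b k i (x a) = prefixes b k i (x a') ↔
      prefixes b k i (y a) = prefixes b k i (y a')) (a a' : Fin R) :
    (digitTree b (k + 1) hb).D (x a) (x a') = (digitTree b (k + 1) hb).D (y a) (y a') := by
  by_cases haa : a = a'
  · subst haa
    simp only [digitTree, dist_self]
  · exact dist_eq_of_pattern b k (fun e => haa (hx.injective e)) (fun e => haa (hy.injective e))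
      fun i => h i a a'

lemma Del_image {R : ℕ} {x y : Fin R → Fin (b ^ (k + 1))} (hx : StrictMono x) (hy : StrictMono y)
    (h : ∀ a a', (digitTree b (k + 1) hb).D (x a) (x a') = (digitTree b (k + 1) hb).D (y a) (y a')) :
    (digitTree b (k + 1) hb).Del (univ.image x) = (digitTree b (k + 1) hb).Del (univ.image y) := by
  classical
  have key : ∀ (x y : Fin R → Fin (b ^ (k + 1))), StrictMono x → StrictMono y →
      (∀ a a', (digitTree b (k + 1) hb).D (x a) (x a') = (digitTree b (k + 1) hb).D (y a) (y a')) →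
      ∀ j, j ∈ (digitTree b (k + 1) hb).Del (univ.image x) →
        j ∈ (digitTree b (k + 1) hb).Del (univ.image y) := by
    intro x y hx hy h j hj
    rw [Tree.mem_Del] at hj ⊢
    obtain ⟨u, hu, v, hv, huv, hD⟩ := hj
    obtain ⟨a, -, rfl⟩ := Finset.mem_image.mp hu
    obtain ⟨a', -, rfl⟩ := Finset.mem_image.mp hv
    exact ⟨y a, Finset.mem_image_of_mem _ (mem_univ _), y a',
      Finset.mem_image_of_mem _ (mem_univ _), hy (hx.lt_iff_lt.mp huv), by rw [← h, hD]⟩
  ext j
  exact ⟨key x y hx hy h j, key y x hy hx (fun a a' => (h a a').symm) j⟩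

lemma first4_image {R : ℕ} {x y : Fin R → Fin (b ^ (k + 1))} (hx : StrictMono x) (hy : StrictMono y)
    {u0 u1 u2 u3 : Fin (b ^ (k + 1))} (hF : First4 (univ.image x) u0 u1 u2 u3) :
    ∃ a0 a1 a2 a3 : Fin R, u0 = x a0 ∧ u1 = x a1 ∧ u2 = x a2 ∧ u3 = x a3 ∧
      First4 (univ.image y) (y a0) (y a1) (y a2) (y a3) := by
  classical
  obtain ⟨h0, h1, h2, h3, h01, h12, h23, hall⟩ := hF
  obtain ⟨a0, -, rfl⟩ := Finset.mem_image.mp h0
  obtain ⟨a1, -, rfl⟩ := Finset.mem_image.mp h1
  obtain ⟨a2, -, rfl⟩ := Finset.mem_image.mp h2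
  obtain ⟨a3, -, rfl⟩ := Finset.mem_image.mp h3
  refine ⟨a0, a1, a2, a3, rfl, rfl, rfl, rfl, ?_⟩
  refine ⟨Finset.mem_image_of_mem _ (mem_univ _), Finset.mem_image_of_mem _ (mem_univ _),
    Finset.mem_image_of_mem _ (mem_univ _), Finset.mem_image_of_mem _ (mem_univ _),
    hy (hx.lt_iff_lt.mp h01), hy (hx.lt_iff_lt.mp h12), hy (hx.lt_iff_lt.mp h23), ?_⟩
  intro v hv
  obtain ⟨a, -, rfl⟩ := Finset.mem_image.mp hv
  rcases hall (x a) (Finset.mem_image_of_mem _ (mem_univ _)) with h | h | h | h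
  · exact Or.inl (by rw [hx.injective h])
  · exact Or.inr (Or.inl (by rw [hx.injective h]))
  · exact Or.inr (Or.inr (Or.inl (by rw [hx.injective h])))
  · exact Or.inr (Or.inr (Or.inr (hy.le_iff_le.mpr (hx.le_iff_le.mp h))))

theorem c4_determined {κ : Type} (p q : κ) (φ : Finset (Fin (k + 1)) → κ) (R : ℕ)
    (g : Fin 0 → Fin (b ^ (k + 1)) → ℕ) :
    Determined R (prefixes b k) g ((digitTree b (k + 1) hb).c4 p q φ) := by
  classical
  intro x y hx hy hf _
  have hD := pattern_dist k hb hx hy hf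
  have hpeak : ∀ (x y : Fin R → Fin (b ^ (k + 1))), StrictMono x → StrictMono y →
      (∀ a a', (digitTree b (k + 1) hb).D (x a) (x a') = (digitTree b (k + 1) hb).D (y a) (y a')) →
      (digitTree b (k + 1) hb).Peak (univ.image x) → (digitTree b (k + 1) hb).Peak (univ.image y) := by
    rintro x y hx hy hD ⟨u0, u1, u2, u3, hF, h1, h2⟩
    obtain ⟨a0, a1, a2, a3, rfl, rfl, rfl, rfl, hF'⟩ := first4_image k hx hy hF
    refine ⟨_, _, _, _, hF', ?_, ?_⟩
    · rwa [← hD, ← hD]
    · rwa [← hD, ← hD]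
  have hvalley : ∀ (x y : Fin R → Fin (b ^ (k + 1))), StrictMono x → StrictMono y →
      (∀ a a', (digitTree b (k + 1) hb).D (x a) (x a') = (digitTree b (k + 1) hb).D (y a) (y a')) →
      (digitTree b (k + 1) hb).Valley (univ.image x) → (digitTree b (k + 1) hb).Valley (univ.image y) := by
    rintro x y hx hy hD ⟨u0, u1, u2, u3, hF, h1, h2⟩
    obtain ⟨a0, a1, a2, a3, rfl, rfl, rfl, rfl, hF'⟩ := first4_image k hx hy hF
    refine ⟨_, _, _, _, hF', ?_, ?_⟩
    · rwa [← hD, ← hD]
    · rwa [← hD, ← hD]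
  have h1 : (digitTree b (k + 1) hb).Peak (univ.image x) ↔ (digitTree b (k + 1) hb).Peak (univ.image y) :=
    ⟨hpeak x y hx hy hD, hpeak y x hy hx fun a a' => (hD a a').symm⟩
  have h2 : (digitTree b (k + 1) hb).Valley (univ.image x) ↔
      (digitTree b (k + 1) hb).Valley (univ.image y) :=
    ⟨hvalley x y hx hy hD, hvalley y x hy hx fun a a' => (hD a a').symm⟩
  unfold Tree.c4
  rw [if_congr h1 rfl (if_congr h2 rfl (by rw [Del_image k hb hx hy hD]))]

theorem c3_determined {κ : Type} (φ : Finset (Fin (k + 1)) → κ) (R : ℕ)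
    (g : Fin 0 → Fin (b ^ (k + 1)) → ℕ) :
    Determined R (prefixes b k) g ((digitTree b (k + 1) hb).c3 φ) := by
  classical
  intro x y hx hy hf _
  have hD := pattern_dist k hb hx hy hf
  have hflag : ∀ (x y : Fin R → Fin (b ^ (k + 1))), StrictMono x → StrictMono y →
      (∀ a a', (digitTree b (k + 1) hb).D (x a) (x a') = (digitTree b (k + 1) hb).D (y a) (y a')) →
      (digitTree b (k + 1) hb).Flag (univ.image x) → (digitTree b (k + 1) hb).Flag (univ.image y) := by
    rintro x y hx hy hD ⟨u0, h0, u1, h1, u2, h2, h01, h12, h⟩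
    obtain ⟨a0, -, rfl⟩ := Finset.mem_image.mp h0
    obtain ⟨a1, -, rfl⟩ := Finset.mem_image.mp h1
    obtain ⟨a2, -, rfl⟩ := Finset.mem_image.mp h2
    exact ⟨_, Finset.mem_image_of_mem _ (mem_univ a0), _,
      Finset.mem_image_of_mem _ (mem_univ a1), _, Finset.mem_image_of_mem _ (mem_univ a2),
      hy (hx.lt_iff_lt.mp h01), hy (hx.lt_iff_lt.mp h12), by rwa [← hD, ← hD]⟩
  have h1 : (digitTree b (k + 1) hb).Flag (univ.image x) ↔ (digitTree b (k + 1) hb).Flag (univ.image y) :=
    ⟨hflag x y hx hy hD, hflag y x hy hx fun a a' => (hD a a').symm⟩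
  unfold Tree.c3
  rw [Del_image k hb hx hy hD]
  congr 1
  exact decide_eq_decide.mpr h1

end det

end Pool.Agent.H383.SF
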