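import Pool.Graph.R_seed8.Y422.TW.Final
import Pool.Agent.H383.SF.Four

/-!
# Towers of full height with four colours
-/

set_option autoImplicit false

namespace Pool.Agent.H383.SF

open Finset

theorem pairs (m : ℕ) (hm : 1 ≤ m) : ∃ φ : Finset (Fin (2 ^ m)) → Bool,
    ∀ E, Homogeneous 2 φ E → E.card ≤ 2 * m + 1 := by
  classical
  obtain ⟨G, h1, h2⟩ := Pool.Agent.Y422.TW.erdos m hm
  refine ⟨fun S => decide (∃ x ∈ S, ∃ y ∈ S, G.Adj x y), ?_⟩
  intro E hE
  by_contra hcard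
  push Not at hcard
  obtain ⟨E', hE', hc⟩ := Finset.exists_subset_card_eq (show 2 * m + 2 ≤ E.card by omega)
  have key : ∀ x y, (∃ a ∈ ({x, y} : Finset (Fin (2 ^ m))), ∃ b ∈ ({x, y} : Finset (Fin (2 ^ m))),
      G.Adj a b) ↔ G.Adj x y := by
    intro x y
    constructor
    · rintro ⟨a, ha, b, hb, hab⟩
      simp only [mem_insert, mem_singleton] at ha hb
      rcases ha with rfl | rfl <;> rcases hb with rfl | rfl
      · exact absurd hab (G.loopless.irrefl _)
      · exact hab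
      · exact hab.symm
      · exact absurd hab (G.loopless.irrefl _)
    · intro h
      exact ⟨x, by simp, y, by simp, h⟩
  have hpair : ∀ x ∈ E', ∀ y ∈ E', x ≠ y → ∀ u ∈ E', ∀ v ∈ E', u ≠ v →
      (G.Adj x y ↔ G.Adj u v) := by
    intro x hx y hy hxy u hu v hv huv
    have := hE {x, y} (by
      intro w hw
      simp only [mem_insert, mem_singleton] at hw
      rcases hw with rfl | rfl
      · exact hE' hx
      · exact hE' hy) {u, v} (by
      intro w hw
      simp only [mem_insert, mem_singleton] at hw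
      rcases hw with rfl | rfl
      · exact hE' hu
      · exact hE' hv) (Finset.card_pair hxy) (Finset.card_pair huv)
    have h3 := decide_eq_decide.mp this
    rwa [key, key] at h3
  obtain ⟨u, hu, v, hv, huv⟩ := Finset.one_lt_card.mp (show 1 < E'.card by omega)
  by_cases hadj : G.Adj u v
  · apply h1 E'
    rw [SimpleGraph.isNClique_iff]
    refine ⟨?_, hc⟩
    intro x hx y hy hxy
    exact (hpair u hu v hv huv x hx y hy hxy).mp hadj
  · apply h2 E'
    rw [SimpleGraph.isNClique_iff]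
    refine ⟨?_, hc⟩
    intro x hx y hy hxy
    rw [SimpleGraph.compl_adj]
    exact ⟨hxy, fun h => hadj ((hpair u hu v hv huv x hx y hy hxy).mpr h)⟩

/-- one step, uniformity at least four -/
theorem step4 {κ : Type} {p q : κ} (hpq : p ≠ q) (K b s r : ℕ) (hK : 1 ≤ K) (hb : 2 ≤ b)
    (hr : 3 ≤ r) (φ : Finset (Fin K) → κ) (hφ : ∀ E, Homogeneous r φ E → E.card ≤ s) :
    ∃ (f : Fin (K - 1) → Fin (b ^ K) → ℕ) (c : Finset (Fin (b ^ K)) → κ),
      Determined (r + 1) f Fin.elim0 c ∧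
        ∀ H, Homogeneous (r + 1) c H → H.card ≤ s * b + (r - 2) := by
  obtain ⟨k, rfl⟩ : ∃ k, K = k + 1 := ⟨K - 1, by omega⟩
  exact ⟨prefixes b k, (digitTree b (k + 1) (by omega)).c4 p q φ,
    c4_determined k (by omega) p q φ (r + 1) _,
    fun H hH => c4_bound _ φ hpq hb hr hφ H hH⟩

/-- one step, triples -/
theorem step3 {κ : Type} (K b s : ℕ) (hK : 1 ≤ K) (hb : 2 ≤ b)
    (φ : Finset (Fin K) → κ) (hφ : ∀ E, Homogeneous 2 φ E → E.card ≤ s) :
    ∃ (f : Fin (K - 1) → Fin (b ^ K) → ℕ) (c : Finset (Fin (b ^ K)) → κ × Bool),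
      Determined 3 f Fin.elim0 c ∧
        ∀ H, Homogeneous 3 c H → H.card ≤ s * (b - 1) + 1 := by
  obtain ⟨k, rfl⟩ : ∃ k, K = k + 1 := ⟨K - 1, by omega⟩
  exact ⟨prefixes b k, (digitTree b (k + 1) (by omega)).c3 φ,
    c3_determined k (by omega) φ 3 _,
    fun H hH => c3_bound _ φ hb hφ H hH⟩

lemma twr_pos (j m : ℕ) (hm : 1 ≤ m) : 1 ≤ twr j m := by
  cases j with
  | zero => exact hm
  | succ j => exact Nat.one_le_two_pow

theorem towers (m : ℕ) (hm : 1 ≤ m) : ∀ j : ℕ,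
    ∃ (f : Fin (twr (j + 1) m - 1) → Fin (twr (j + 2) m) → ℕ)
      (c : Finset (Fin (twr (j + 2) m)) → Bool × Bool), Determined (j + 3) f Fin.elim0 c ∧
        ∀ H, Homogeneous (j + 3) c H → H.card + (j + 3) ≤ 2 ^ (j + 1) * (m + 2) + 1
  | 0 => by
      obtain ⟨φ, hφ⟩ := pairs m hm
      obtain ⟨f, c, h1, h2⟩ := step3 (twr 1 m) 2 (2 * m + 1) (twr_pos 1 m hm) le_rfl φ hφ
      refine ⟨f, c, h1, fun H hH => ?_⟩
      have h3 : H.card ≤ (2 * m + 1) * (2 - 1) + 1 := h2 H hH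
      omega
  | j + 1 => by
      obtain ⟨_, c₀, _, h₀⟩ := towers m hm j
      have hbig : j + 3 ≤ 2 ^ (j + 1) * (m + 2) + 1 := by
        have h1 : j + 1 < 2 ^ (j + 1) := Nat.lt_two_pow_self
        nlinarith
      obtain ⟨f, c, h1, h2⟩ := step4 (p := ((true, true) : Bool × Bool)) (q := (false, false))
        (by decide) (twr (j + 2) m) 2 (2 ^ (j + 1) * (m + 2) + 1 - (j + 3)) (j + 3)
        (twr_pos _ m hm) le_rfl (by omega) c₀ (fun E hE => by
          have := h₀ E hE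
          omega)
      refine ⟨f, c, h1, fun H hH => ?_⟩
      have h3 : H.card ≤ (2 ^ (j + 1) * (m + 2) + 1 - (j + 3)) * 2 + (j + 3 - 2) := h2 H hH
      have h4 : 2 ^ (j + 1 + 1) * (m + 2) = 2 * (2 ^ (j + 1) * (m + 2)) := by ring
      omega

end Pool.Agent.H383.SF
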