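import Pool.Graph.R_pool_sql_team_seeded_1acbe0a2.Y904.GS.Sun
import Pool.Graph.R_seed8.R795.Min.ES
import Pool.Agent.H383.SF.Defs

/-!
# Upper bound: sunflowers of vertices
-/

set_option autoImplicit false

namespace Pool.Agent.H383.SF

open Finset

/-- From sunflowers of sets to sunflowers of vertices. -/
theorem functions_of_sunflower {V : Type} [Fintype V] [DecidableEq V] (k m B : ℕ)
    (f : Fin k → V → ℕ)
    (hsun : ∀ (M : ℕ) (F : Finset (Finset (Fin k × Fin M))), (∀ S ∈ F, S.card = k) → B < F.card →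
      ∃ (Y : Finset (Fin k × Fin M)) (G : Finset (Finset (Fin k × Fin M))), G ⊆ F ∧
        G.card = m ∧ ∀ S ∈ G, ∀ T ∈ G, S ≠ T → S ∩ T = Y)
    (hN : (m - 1) * B < Fintype.card V) :
    ∃ (U : Finset V) (T : Finset (Fin k)), U.card = m ∧
      ∀ u ∈ U, ∀ v ∈ U, u ≠ v → ∀ i, (f i u = f i v ↔ i ∈ T) := by
  classical
  set M := (univ.sup fun p : Fin k × V => f p.1 p.2) + 1 with hM
  have hlt : ∀ i v, f i v < M := by
    intro i v
    have := Finset.le_sup (f := fun p : Fin k × V => f p.1 p.2) (mem_univ (i, v))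
    simp only at this
    omega
  let e : Fin k → V → Fin M := fun i v => ⟨f i v, hlt i v⟩
  have he : ∀ i u v, e i u = e i v ↔ f i u = f i v := by
    intro i u v
    simp [e]
  let S : V → Finset (Fin k × Fin M) := fun v => univ.image fun i => (i, e i v)
  have hScard : ∀ v, (S v).card = k := by
    intro v
    rw [Finset.card_image_of_injective, Finset.card_univ, Fintype.card_fin]
    intro i j hij
    exact (Prod.mk.inj hij).1
  have hmem : ∀ v i x, (i, x) ∈ S v ↔ e i v = x := by
    intro v i x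
    simp only [S, mem_image, mem_univ, true_and, Prod.mk.injEq]
    constructor
    · rintro ⟨j, rfl, h⟩
      exact h
    · intro h
      exact ⟨i, rfl, h⟩
  by_cases hbig : B < (univ.image S).card
  · obtain ⟨Y, G, hG, hGc, hGY⟩ := hsun M (univ.image S) (by
        intro T hT
        obtain ⟨v, -, rfl⟩ := Finset.mem_image.mp hT
        exact hScard v) hbig
    have hv : ∀ A : Finset (Fin k × Fin M), ∃ v, A ∈ G → S v = A := by
      intro A
      by_cases hA : A ∈ G
      · obtain ⟨v, -, h⟩ := Finset.mem_image.mp (hG hA)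
        exact ⟨v, fun _ => h⟩
      · have hcV : 0 < Fintype.card V := by omega
        exact ⟨(Fintype.card_pos_iff.mp hcV).some, fun h => absurd h hA⟩
    choose v hv using hv
    have hinj : Set.InjOn v G := by
      intro A hA A' hA' h
      rw [← hv A hA, ← hv A' hA', h]
    refine ⟨G.image v, univ.filter (fun i => ∃ x, (i, x) ∈ Y), ?_, ?_⟩
    · rw [Finset.card_image_of_injOn hinj, hGc]
    · intro u hu w hw huw i
      obtain ⟨A, hA, rfl⟩ := Finset.mem_image.mp hu
      obtain ⟨A', hA', rfl⟩ := Finset.mem_image.mp hw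
      have hab : A ≠ A' := fun h => huw (by rw [h])
      have h1 := hGY A hA A' hA' hab
      rw [← he, Finset.mem_filter]
      simp only [mem_univ, true_and]
      constructor
      · intro h
        refine ⟨e i (v A), ?_⟩
        have hx1 : (i, e i (v A)) ∈ S (v A) := (hmem _ _ _).mpr rfl
        have hx2 : (i, e i (v A)) ∈ S (v A') := (hmem _ _ _).mpr h.symm
        rw [hv A hA] at hx1
        rw [hv A' hA'] at hx2
        rw [← h1, Finset.mem_inter]
        exact ⟨hx1, hx2⟩
      · rintro ⟨x, hx⟩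
        rw [← h1, Finset.mem_inter] at hx
        have hx1 : (i, x) ∈ S (v A) := by
          rw [hv A hA]
          exact hx.1
        have hx2 : (i, x) ∈ S (v A') := by
          rw [hv A' hA']
          exact hx.2
        rw [hmem] at hx1 hx2
        rw [hx1, hx2]
  · push Not at hbig
    have h1 : (univ.image S).card * (m - 1) < (univ : Finset V).card := by
      rw [Finset.card_univ]
      calc (univ.image S).card * (m - 1) ≤ B * (m - 1) := Nat.mul_le_mul_right _ hbig
        _ = (m - 1) * B := mul_comm _ _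
        _ < _ := hN
    obtain ⟨y, hy, hy2⟩ := Finset.exists_lt_card_fiber_of_mul_lt_card_of_maps_to
      (f := S) (t := univ.image S) (fun a ha => Finset.mem_image_of_mem _ ha) h1
    have h2 : m ≤ (univ.filter fun x => S x = y).card := by omega
    obtain ⟨U, hU, hUc⟩ := Finset.exists_subset_card_eq h2
    refine ⟨U, univ, hUc, ?_⟩
    intro u hu v hv huv i
    simp only [mem_univ, iff_true]
    have hu' := (Finset.mem_filter.mp (hU hu)).2
    have hv' := (Finset.mem_filter.mp (hU hv)).2
    rw [← he]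
    have h3 : (i, e i v) ∈ S u := by
      rw [hu', ← hv', hmem]
    rwa [hmem] at h3

/-- the sunflower lemma with a logarithmic base, in the form used here -/
theorem sunflower_base (k m : ℕ) (hm : 1 ≤ m) {α : Type} [Fintype α] [DecidableEq α]
    (F : Finset (Finset α)) (hF : ∀ S ∈ F, S.card = k) (hbig : base k m ^ k < F.card) :
    ∃ (Y : Finset α) (G : Finset (Finset α)), G ⊆ F ∧ G.card = m ∧
      ∀ S ∈ G, ∀ T ∈ G, S ≠ T → S ∩ T = Y := by
  classical
  obtain ⟨Y, P, hP, hPP⟩ := Pool.Agent.Y904.GS.sunflower (κ := m) (Nat.log 4 m + 1)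
      (Nat.log 2 k + 1) (base k m) k (by omega) (by omega) hm
      (Nat.lt_pow_succ_log_self (by norm_num) m) le_rfl
      (Nat.lt_pow_succ_log_self (by norm_num) k) F hF hbig
  have hinj : Function.Injective P := by
    intro a b hab
    by_contra hne
    have h1 := hPP a b hne
    rw [hab, Finset.inter_self] at h1
    have h2 := (hP b).2
    rw [h1] at h2
    exact (ssubset_irrefl _) h2
  refine ⟨Y, univ.image P, ?_, ?_, ?_⟩
  · intro A hA
    obtain ⟨a, -, rfl⟩ := Finset.mem_image.mp hA
    exact (hP a).1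
  · rw [Finset.card_image_of_injective _ hinj, Finset.card_univ, Fintype.card_fin]
  · intro A hA A' hA' hne
    obtain ⟨a, -, rfl⟩ := Finset.mem_image.mp hA
    obtain ⟨a', -, rfl⟩ := Finset.mem_image.mp hA'
    exact hPP a a' fun h => hne (by rw [h])

theorem sunflower_functions {V : Type} [Fintype V] [DecidableEq V] (k m : ℕ) (f : Fin k → V → ℕ)
    (hm : 1 ≤ m) (hN : (m - 1) * base k m ^ k < Fintype.card V) :
    ∃ (U : Finset V) (T : Finset (Fin k)), U.card = m ∧
      ∀ u ∈ U, ∀ v ∈ U, u ≠ v → ∀ i, (f i u = f i v ↔ i ∈ T) :=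
  functions_of_sunflower k m (base k m ^ k) f
    (fun _ F hF hbig => sunflower_base k m hm F hF hbig) hN

/-- A set of vertices on which all pairs have the same equality pattern is homogeneous. -/
theorem homogeneous_of_pattern {r k N : ℕ} {κ : Type} {f : Fin k → Fin N → ℕ}
    {g : Fin 0 → Fin N → ℕ} {c : Finset (Fin N) → κ} (hc : Determined r f g c)
    (U : Finset (Fin N)) (T : Finset (Fin k))
    (hU : ∀ u ∈ U, ∀ v ∈ U, u ≠ v → ∀ i, (f i u = f i v ↔ i ∈ T)) : Homogeneous r c U := by
  classical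
  intro S hS S' hS' hSc hSc'
  have hx := hc (S.orderEmbOfFin hSc) (S'.orderEmbOfFin hSc') (OrderEmbedding.strictMono _)
    (OrderEmbedding.strictMono _) ?_ (fun j => j.elim0)
  · rwa [Finset.image_orderEmbOfFin_univ, Finset.image_orderEmbOfFin_univ] at hx
  · intro i a b
    by_cases hab : a = b
    · simp [hab]
    · rw [hU _ (hS (Finset.orderEmbOfFin_mem _ _ _)) _
        (hS (Finset.orderEmbOfFin_mem _ _ _)) (fun h => hab ((S.orderEmbOfFin hSc).injective h)),
        hU _ (hS' (Finset.orderEmbOfFin_mem _ _ _)) _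
        (hS' (Finset.orderEmbOfFin_mem _ _ _))
        (fun h => hab ((S'.orderEmbOfFin hSc').injective h))]

/-- the three kinds of behaviour of a function on a set of vertices -/
def Tame {V : Type} [LinearOrder V] (H : Finset V) (g : V → ℕ) : Prop :=
  (∀ u ∈ H, ∀ v ∈ H, u < v → g u < g v) ∨ (∀ u ∈ H, ∀ v ∈ H, u < v → g v < g u) ∨
    (∀ u ∈ H, ∀ v ∈ H, g u = g v)

lemma Tame.mono {V : Type} [LinearOrder V] {H H' : Finset V} {g : V → ℕ} (h : Tame H g)
    (hs : H' ⊆ H) : Tame H' g := by
  rcases h with h | h | h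
  · exact Or.inl fun u hu v hv => h u (hs hu) v (hs hv)
  · exact Or.inr (Or.inl fun u hu v hv => h u (hs hu) v (hs hv))
  · exact Or.inr (Or.inr fun u hu v hv => h u (hs hu) v (hs hv))

lemma es_one {V : Type} [LinearOrder V] (U : Finset V) (g : V → ℕ) (a : ℕ)
    (hg : (∀ u ∈ U, ∀ v ∈ U, u ≠ v → g u ≠ g v) ∨ (∀ u ∈ U, ∀ v ∈ U, g u = g v))
    (hU : a * a < U.card) : ∃ H ⊆ U, H.card = a + 1 ∧ Tame H g := by
  classical
  rcases hg with hg | hg
  · have hinj : Function.Injective (fun x : U => g x) := by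
      intro x y hxy
      by_contra hne
      exact hg x x.2 y y.2 (fun h => hne (Subtype.ext h)) hxy
    have hcard : a * a < Fintype.card U := by
      rw [Fintype.card_coe]
      exact hU
    rcases Pool.Agent.R795.Min.erdos_szekeres hcard hinj with ⟨t, ht, hm⟩ | ⟨t, ht, hm⟩
    · obtain ⟨t', ht', hc⟩ := Finset.exists_subset_card_eq (show a + 1 ≤ t.card by omega)
      refine ⟨t'.map (Function.Embedding.subtype _), ?_, by rw [Finset.card_map, hc], ?_⟩
      · intro x hx
        obtain ⟨y, -, rfl⟩ := Finset.mem_map.mp hx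
        exact y.2
      · left
        intro u hu v hv huv
        obtain ⟨x, hx, rfl⟩ := Finset.mem_map.mp hu
        obtain ⟨y, hy, rfl⟩ := Finset.mem_map.mp hv
        exact hm (ht' hx) (ht' hy) huv
    · obtain ⟨t', ht', hc⟩ := Finset.exists_subset_card_eq (show a + 1 ≤ t.card by omega)
      refine ⟨t'.map (Function.Embedding.subtype _), ?_, by rw [Finset.card_map, hc], ?_⟩
      · intro x hx
        obtain ⟨y, -, rfl⟩ := Finset.mem_map.mp hx
        exact y.2
      · right; left
        intro u hu v hv huv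
        obtain ⟨x, hx, rfl⟩ := Finset.mem_map.mp hu
        obtain ⟨y, hy, rfl⟩ := Finset.mem_map.mp hv
        exact hm (ht' hx) (ht' hy) huv
  · have h1 : a + 1 ≤ U.card := by nlinarith [Nat.zero_le a]
    obtain ⟨H, hH, hc⟩ := Finset.exists_subset_card_eq h1
    exact ⟨H, hH, hc, Or.inr (Or.inr fun u hu v hv => hg u (hH hu) v (hH hv))⟩

lemma es_many {V : Type} [LinearOrder V] (a : ℕ) : ∀ (t : ℕ) (g : Fin t → V → ℕ) (U : Finset V),
    (∀ j, (∀ u ∈ U, ∀ v ∈ U, u ≠ v → g j u ≠ g j v) ∨ (∀ u ∈ U, ∀ v ∈ U, g j u = g j v)) →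
    a ^ (2 ^ t) < U.card → ∃ H ⊆ U, H.card = a + 1 ∧ ∀ j, Tame H (g j)
  | 0, g, U, _, hU => by
      obtain ⟨H, hH, hc⟩ := Finset.exists_subset_card_eq (show a + 1 ≤ U.card by simpa using hU)
      exact ⟨H, hH, hc, fun j => j.elim0⟩
  | t + 1, g, U, hg, hU => by
      have h1 : a ^ (2 ^ t) * a ^ (2 ^ t) < U.card := by
        rwa [← pow_add, ← two_mul, ← pow_succ']
      obtain ⟨H, hH, hc, hT⟩ := es_one U (g (Fin.last t)) (a ^ (2 ^ t)) (hg _) h1
      obtain ⟨H', hH', hc', hT'⟩ := es_many a t (fun j => g j.castSucc) H (fun j => by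
        rcases hg j.castSucc with h | h
        · exact Or.inl fun u hu v hv => h u (hH hu) v (hH hv)
        · exact Or.inr fun u hu v hv => h u (hH hu) v (hH hv)) (by omega)
      refine ⟨H', hH'.trans hH, hc', fun j => ?_⟩
      refine Fin.lastCases ?_ (fun j => ?_) j
      · exact hT.mono hH'
      · exact hT' j

theorem upper (r k t n N : ℕ) (hn : 1 ≤ n) (κ : Type) (f : Fin k → Fin N → ℕ)
    (g : Fin t → Fin N → ℕ) (c : Finset (Fin N) → κ) (hc : Determined r f g c)
    (hN : (n - 1) ^ 2 ^ t * base (k + t) ((n - 1) ^ 2 ^ t + 1) ^ (k + t) < N) :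
    ∃ H : Finset (Fin N), H.card = n ∧ Homogeneous r c H := by
  classical
  set m := (n - 1) ^ 2 ^ t + 1 with hm
  obtain ⟨U, T, hUc, hU⟩ := sunflower_functions (k + t) m (Fin.append f g) (by omega) (by
    rw [Fintype.card_fin]
    simpa [hm] using hN)
  have hUf : ∀ u ∈ U, ∀ v ∈ U, u ≠ v → ∀ i, (f i u = f i v ↔ Fin.castAdd t i ∈ T) := by
    intro u hu v hv huv i
    have := hU u hu v hv huv (Fin.castAdd t i)
    simpa using this
  have hUg : ∀ u ∈ U, ∀ v ∈ U, u ≠ v → ∀ i, (g i u = g i v ↔ Fin.natAdd k i ∈ T) := by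
    intro u hu v hv huv i
    have := hU u hu v hv huv (Fin.natAdd k i)
    simpa using this
  obtain ⟨H, hH, hHc, hT⟩ := es_many (n - 1) t g U (fun j => by
    by_cases hj : Fin.natAdd k j ∈ T
    · right
      intro u hu v hv
      by_cases huv : u = v
      · rw [huv]
      · exact (hUg u hu v hv huv j).mpr hj
    · left
      intro u hu v hv huv h
      exact hj ((hUg u hu v hv huv j).mp h)) (by omega)
  refine ⟨H, by omega, ?_⟩
  intro S hS S' hS' hSc hSc'
  have hx := hc (S.orderEmbOfFin hSc) (S'.orderEmbOfFin hSc') (OrderEmbedding.strictMono _)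
    (OrderEmbedding.strictMono _) ?_ ?_
  · rwa [Finset.image_orderEmbOfFin_univ, Finset.image_orderEmbOfFin_univ] at hx
  · intro i a b
    by_cases hab : a = b
    · simp [hab]
    · rw [hUf _ (hH (hS (Finset.orderEmbOfFin_mem _ _ _))) _
        (hH (hS (Finset.orderEmbOfFin_mem _ _ _))) (fun h => hab ((S.orderEmbOfFin hSc).injective h)),
        hUf _ (hH (hS' (Finset.orderEmbOfFin_mem _ _ _))) _
        (hH (hS' (Finset.orderEmbOfFin_mem _ _ _)))
        (fun h => hab ((S'.orderEmbOfFin hSc').injective h))]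
  · intro j a b
    have hm1 : ∀ a, S.orderEmbOfFin hSc a ∈ H := fun a => hS (Finset.orderEmbOfFin_mem _ _ _)
    have hm2 : ∀ a, S'.orderEmbOfFin hSc' a ∈ H := fun a => hS' (Finset.orderEmbOfFin_mem _ _ _)
    rcases hT j with h | h | h
    · rcases lt_trichotomy a b with hab | hab | hab
      · have h1 := h _ (hm1 a) _ (hm1 b) ((S.orderEmbOfFin hSc).strictMono hab)
        have h2 := h _ (hm2 a) _ (hm2 b) ((S'.orderEmbOfFin hSc').strictMono hab)
        exact ⟨fun _ => h2.le, fun _ => h1.le⟩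
      · simp [hab]
      · have h1 := h _ (hm1 b) _ (hm1 a) ((S.orderEmbOfFin hSc).strictMono hab)
        have h2 := h _ (hm2 b) _ (hm2 a) ((S'.orderEmbOfFin hSc').strictMono hab)
        exact ⟨fun h' => absurd h' (not_le.mpr h1), fun h' => absurd h' (not_le.mpr h2)⟩
    · rcases lt_trichotomy a b with hab | hab | hab
      · have h1 := h _ (hm1 a) _ (hm1 b) ((S.orderEmbOfFin hSc).strictMono hab)
        have h2 := h _ (hm2 a) _ (hm2 b) ((S'.orderEmbOfFin hSc').strictMono hab)
        exact ⟨fun h' => absurd h' (not_le.mpr h1), fun h' => absurd h' (not_le.mpr h2)⟩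
      · simp [hab]
      · have h1 := h _ (hm1 b) _ (hm1 a) ((S.orderEmbOfFin hSc).strictMono hab)
        have h2 := h _ (hm2 b) _ (hm2 a) ((S'.orderEmbOfFin hSc').strictMono hab)
        exact ⟨fun _ => h2.le, fun _ => h1.le⟩
    · exact ⟨fun _ => (h _ (hm2 a) _ (hm2 b)).le, fun _ => (h _ (hm1 a) _ (hm1 b)).le⟩

end Pool.Agent.H383.SF
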